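import Pool.Agent.H99.HC.Strategies

/-!
# All fibre vectors with a large sum of squares are good
-/

namespace Pool.Agent.H99.HC

open Finset

/-- the primes of the question -/
def PL : List ℕ := [11, 13, 17, 19, 23, 29, 31, 37, 41, 43]

/-- the largest `K` with `K ^ 2 / 4 + 2 ≤ p` -/
def KK (p : ℕ) : ℕ :=
  if p ≤ 13 then 6 else if p ≤ 17 then 7 else if p ≤ 19 then 8 else if p ≤ 23 then 9 else
  if p ≤ 31 then 10 else if p ≤ 37 then 11 else 12

/-- the number of fibres used in Strategy 3 -/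
def II (p : ℕ) : ℕ := if p ≤ 17 then 5 else if p ≤ 19 then 6 else if p ≤ 23 then 8 else 11

set_option maxRecDepth 100000 in
theorem arithA : ∀ p ∈ PL, ∀ a < p, KK p < a → ∀ b < p - 3, b ≤ a →
    ∃ r < 22, 2 * r ≤ a ∧ p ≤ r * (a - r) + 1 ∧ b + 2 * r ≤ p := by
  decide

set_option maxRecDepth 100000 in
theorem arithB : ∀ p ∈ PL, p ≤ (KK p + 1) ^ 2 / 4 + 1 := by decide

set_option maxRecDepth 100000 in
theorem arithC0 : ∀ p ∈ PL, ∀ o < p + 1, o % 2 = 1 →
    p ≤ (o + (2 * p - 2 - o) / 4) ^ 2 / 4 + ((2 * p - 2 - o) / 4) ^ 2 / 4 + 1 := by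
  decide

theorem arithC (p : ℕ) (hp : p ∈ PL) (o L : ℕ) (ho : o ≤ p) (ho2 : o % 2 = 1)
    (hL : 2 * p ≤ 4 * L + o + 5) : p ≤ (o + L) ^ 2 / 4 + L ^ 2 / 4 + 1 := by
  have h := arithC0 p hp o (by omega) ho2
  have h1 : (2 * p - 2 - o) / 4 ≤ L := by omega
  have h2 : (o + (2 * p - 2 - o) / 4) ^ 2 / 4 ≤ (o + L) ^ 2 / 4 :=
    Nat.div_le_div_right (Nat.pow_le_pow_left (by omega) 2)
  have h3 : ((2 * p - 2 - o) / 4) ^ 2 / 4 ≤ L ^ 2 / 4 :=
    Nat.div_le_div_right (Nat.pow_le_pow_left h1 2)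
  omega

set_option maxRecDepth 100000 in
theorem arithD : ∀ p ∈ PL, ∀ v < p - 1, 3 ≤ v →
    p ≤ (v - 1) * (p - 2 - v) + (p - v) * (v - 3) + 1 := by
  decide

set_option maxRecDepth 100000 in
theorem arithE : ∀ p ∈ PL, 17 ≤ p → 4 * II p + 4 * KK p + 1 ≤ 3 * p ∧
    ∀ f < KK p + 1, II p < f → (p - 1) * f ≤ II p * (2 * p - 1 - f) := by
  decide

/-- a choice for Strategy 4 exists, tested by machine -/
def okT (p n1 n2 n3 n4 n5 n6 : ℕ) : Bool :=
  (List.range 7).any fun t => (List.range 5).any fun y => (List.range 7).any fun x =>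
    decide (t ≤ n3 + n5) && decide (y ≤ n4 + n6) && decide (x + y ≤ n2 + n4 + n6) &&
    decide (p + 2 * t + x + 4 * y ≤ n2 + 2 * n3 + 4 * n4 + 6 * n5 + 9 * n6 + 1) &&
    decide (p ≤ (n1 + n3 + n5 + x + y) ^ 2 / 4 + (t + x + y) ^ 2 / 4 + (t + y) ^ 2 / 4 +
      y ^ 2 / 4 + 1)

theorem okT_spec {p n1 n2 n3 n4 n5 n6 : ℕ} (h : okT p n1 n2 n3 n4 n5 n6 = true) :
    ∃ t y x, t ≤ n3 + n5 ∧ y ≤ n4 + n6 ∧ x + y ≤ n2 + n4 + n6 ∧
      p + 2 * t + x + 4 * y ≤ n2 + 2 * n3 + 4 * n4 + 6 * n5 + 9 * n6 + 1 ∧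
      p ≤ (n1 + n3 + n5 + x + y) ^ 2 / 4 + (t + x + y) ^ 2 / 4 + (t + y) ^ 2 / 4 +
        y ^ 2 / 4 + 1 := by
  unfold okT at h
  rw [List.any_eq_true] at h
  obtain ⟨t, _, h⟩ := h
  rw [List.any_eq_true] at h
  obtain ⟨y, _, h⟩ := h
  rw [List.any_eq_true] at h
  obtain ⟨x, _, h⟩ := h
  simp only [Bool.and_eq_true, decide_eq_true_eq] at h
  exact ⟨t, y, x, h.1.1.1.1, h.1.1.1.2, h.1.1.2, h.1.2, h.2⟩

/-- all numbers of fibres of the sizes `2, …, 6`; `n1` is determined by the sum -/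
def checkF (p : ℕ) : Bool :=
  (List.range 5).all fun n6 => (List.range 6).all fun n5 => (List.range 7).all fun n4 =>
    if 6 < n6 + n5 + n4 then true else
    (List.range 7).all fun n3 => if 6 < n6 + n5 + n4 + n3 then true else
    (List.range 7).all fun n2 =>
      if 2 * p < 2 * n2 + 3 * n3 + 4 * n4 + 5 * n5 + 6 * n6 + 1 then true else
      if 6 < (2 * p - (2 * n2 + 3 * n3 + 4 * n4 + 5 * n5 + 6 * n6 + 1)) + n2 + n3 + n4 + n5 + n6
        then true else
      okT p (2 * p - (2 * n2 + 3 * n3 + 4 * n4 + 5 * n5 + 6 * n6 + 1)) n2 n3 n4 n5 n6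

set_option maxRecDepth 100000 in
theorem checkF_11 : checkF 11 = true := by decide

set_option maxRecDepth 100000 in
theorem checkF_13 : checkF 13 = true := by decide

theorem arithF0 (p : ℕ) (hp : p = 11 ∨ p = 13) (n1 n2 n3 n4 n5 n6 : ℕ)
    (hs : n1 + n2 + n3 + n4 + n5 + n6 ≤ 6)
    (hsum : n1 + 2 * n2 + 3 * n3 + 4 * n4 + 5 * n5 + 6 * n6 + 1 = 2 * p) :
    ∃ t y x, t ≤ n3 + n5 ∧ y ≤ n4 + n6 ∧ x + y ≤ n2 + n4 + n6 ∧
      p + 2 * t + x + 4 * y ≤ n2 + 2 * n3 + 4 * n4 + 6 * n5 + 9 * n6 + 1 ∧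
      p ≤ (n1 + n3 + n5 + x + y) ^ 2 / 4 + (t + x + y) ^ 2 / 4 + (t + y) ^ 2 / 4 +
        y ^ 2 / 4 + 1 := by
  have hc : checkF p = true := by
    rcases hp with rfl | rfl
    · exact checkF_11
    · exact checkF_13
  unfold checkF at hc
  simp only [List.all_eq_true, List.mem_range] at hc
  have h1 := hc n6 (by omega) n5 (by omega) n4 (by omega)
  rw [if_neg (by omega)] at h1
  simp only [List.all_eq_true, List.mem_range] at h1
  have h2 := h1 n3 (by omega)
  rw [if_neg (by omega)] at h2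
  simp only [List.all_eq_true, List.mem_range] at h2
  have h3 := h2 n2 (by omega)
  rw [if_neg (by omega), if_neg (by omega)] at h3
  have h4 : 2 * p - (2 * n2 + 3 * n3 + 4 * n4 + 5 * n5 + 6 * n6 + 1) = n1 := by omega
  rw [h4] at h3
  exact okT_spec h3

/-- subsets with at least the average weight -/
theorem exists_heavy {α : Type*} [DecidableEq α] (w : α → ℕ) (F : Finset α) (i : ℕ)
    (hi : i ≤ F.card) : ∃ I ⊆ F, I.card = i ∧ i * ∑ c ∈ F, w c ≤ F.card * ∑ c ∈ I, w c := by
  induction F using Finset.strongInduction with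
  | H F ih =>
    rcases hi.eq_or_lt with h | h
    · exact ⟨F, Subset.rfl, h.symm, by rw [h]⟩
    · have hne : F.Nonempty := by
        rw [← card_pos]; omega
      obtain ⟨c, hc, hmin⟩ := Finset.exists_min_image F w hne
      have hle : F.card * w c ≤ ∑ d ∈ F, w d := by
        rw [← smul_eq_mul]
        exact Finset.card_nsmul_le_sum F w (w c) hmin
      obtain ⟨I, hI1, hI2, hI3⟩ := ih (F.erase c) (Finset.erase_ssubset hc) (by
        rw [card_erase_of_mem hc]; omega)
      refine ⟨I, hI1.trans (erase_subset _ _), hI2, ?_⟩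
      rw [card_erase_of_mem hc] at hI3
      have hs : ∑ d ∈ F, w d = w c + ∑ d ∈ F.erase c, w d := (Finset.add_sum_erase F w hc).symm
      obtain ⟨n, hn⟩ : ∃ n, F.card = n + 1 := ⟨F.card - 1, by omega⟩
      rw [hn, Nat.add_sub_cancel] at hI3
      rw [hn] at hle ⊢
      have hn0 : 0 < n ∨ n = 0 := by omega
      rcases hn0 with hn0 | hn0
      · have h1 : n * (w c + ∑ d ∈ F.erase c, w d) ≤ (n + 1) * ∑ d ∈ F.erase c, w d := by
          rw [hs] at hle
          nlinarith
        rw [hs]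
        have h2 : n * (i * (w c + ∑ d ∈ F.erase c, w d)) ≤ n * ((n + 1) * ∑ d ∈ I, w d) := by
          calc n * (i * (w c + ∑ d ∈ F.erase c, w d))
              = i * (n * (w c + ∑ d ∈ F.erase c, w d)) := by ring
            _ ≤ i * ((n + 1) * ∑ d ∈ F.erase c, w d) := Nat.mul_le_mul_left _ h1
            _ = (n + 1) * (i * ∑ d ∈ F.erase c, w d) := by ring
            _ ≤ (n + 1) * (n * ∑ d ∈ I, w d) := Nat.mul_le_mul_left _ hI3
            _ = n * ((n + 1) * ∑ d ∈ I, w d) := by ring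
        exact Nat.le_of_mul_le_mul_left h2 hn0
      · have : i = 0 := by omega
        subst this
        simp

variable {p : ℕ} [hp : Fact p.Prime]

/-- Case A, special: two fibres with at least `p - 3` elements -/
theorem caseSpecial (hpl : p ∈ PL) (h : ZMod p → ℕ) (hsum : ∑ c, h c + 1 = 2 * p)
    (hle : ∀ c, h c < p) (c₁ c₂ : ZMod p) (h12 : c₁ ≠ c₂) (hmax : h c₂ ≤ h c₁)
    (h2 : p ≤ h c₂ + 3) : Good h := by
  classical
  have hp11 : 11 ≤ p := by
    simp only [PL, List.mem_cons, List.not_mem_nil, or_false] at hpl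
    omega
  have hd : c₂ - c₁ ≠ 0 := sub_ne_zero.2 h12.symm
  have hl1 := hle c₁
  have hl2 := hle c₂
  -- the rest
  have hrest : h c₁ + h c₂ + ∑ c ∈ (univ.erase c₁).erase c₂, h c = ∑ c, h c := by
    rw [← Finset.add_sum_erase univ h (mem_univ c₁), ← Finset.add_sum_erase (univ.erase c₁) h
      (mem_erase.2 ⟨h12.symm, mem_univ c₂⟩)]
    ring
  by_cases hi : ∃ u, u ≠ c₁ ∧ u ≠ c₂ ∧ 1 ≤ h u ∧ 3 ≤ ((u - c₁) / (c₂ - c₁)).val ∧
      ((u - c₁) / (c₂ - c₁)).val < p - 1
  · obtain ⟨u, hu1, hu2, hu, hv3, hvp⟩ := hi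
    set V := (u - c₁) / (c₂ - c₁) with hV
    set v := V.val with hv
    have hvV : (v : ZMod p) = V := ZMod.natCast_zmod_val V
    have harith := arithD p hpl v hvp hv3
    refine special h c₁ c₂ u h12 hu1 hu2 1 (v - 1) (p - v) hu (by omega) (by omega) (by omega)
      ?_ ?_
    · rw [Nat.cast_sub (by omega : 1 ≤ v), Nat.cast_sub (by omega : v ≤ p), hvV]
      have : V * (c₂ - c₁) = u - c₁ := div_mul_cancel₀ _ hd
      simp only [Nat.cast_one, CharP.cast_eq_zero]
      linear_combination (-1 : ZMod p) * this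
    · have e1 : (v - 1) * (p - 2 - v) ≤ (v - 1) * (h c₁ - (v - 1)) :=
        Nat.mul_le_mul_left _ (by omega)
      have e2 : (p - v) * (v - 3) ≤ (p - v) * (h c₂ - (p - v)) :=
        Nat.mul_le_mul_left _ (by omega)
      omega
  · push Not at hi
    set u₂ := 2 * c₂ - c₁ with hu2
    set u₁ := 2 * c₁ - c₂ with hu1
    have a1 : u₁ ≠ c₁ := by
      intro h0
      apply h12
      have : c₁ - c₂ = 0 := by rw [hu1] at h0; linear_combination h0
      exact sub_eq_zero.1 this
    have a2 : u₂ ≠ c₂ := by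
      intro h0
      apply hd
      rw [hu2] at h0; linear_combination h0
    have two_ne : (2 : ZMod p) ≠ 0 := by
      intro h0
      have : ((2 : ℕ) : ZMod p) = 0 := by exact_mod_cast h0
      rw [ZMod.natCast_eq_zero_iff] at this
      have := Nat.le_of_dvd (by norm_num) this
      omega
    have three_ne : (3 : ZMod p) ≠ 0 := by
      intro h0
      have : ((3 : ℕ) : ZMod p) = 0 := by exact_mod_cast h0
      rw [ZMod.natCast_eq_zero_iff] at this
      have := Nat.le_of_dvd (by norm_num) this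
      omega
    have a3 : u₁ ≠ c₂ := by
      intro h0
      have : 2 * (c₂ - c₁) = 0 := by rw [hu1] at h0; linear_combination (-1 : ZMod p) * h0
      rcases mul_eq_zero.1 this with h | h
      · exact two_ne h
      · exact hd h
    have a4 : u₂ ≠ c₁ := by
      intro h0
      have : 2 * (c₂ - c₁) = 0 := by rw [hu2] at h0; linear_combination h0
      rcases mul_eq_zero.1 this with h | h
      · exact two_ne h
      · exact hd h
    have a5 : u₁ ≠ u₂ := by
      intro h0
      have : 3 * (c₂ - c₁) = 0 := by rw [hu1, hu2] at h0; linear_combination (-1 : ZMod p) * h0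
      rcases mul_eq_zero.1 this with h | h
      · exact three_ne h
      · exact hd h
    -- all the remaining elements are over `u₁` and `u₂`
    have hzero : ∀ u, u ≠ c₁ → u ≠ c₂ → u ≠ u₁ → u ≠ u₂ → h u = 0 := by
      intro u b1 b2 b3 b4
      by_contra h0
      have hpos : 1 ≤ h u := Nat.one_le_iff_ne_zero.2 h0
      have hi' := hi u b1 b2 hpos
      set V := (u - c₁) / (c₂ - c₁) with hV
      have hVe : V * (c₂ - c₁) = u - c₁ := div_mul_cancel₀ _ hd
      have hvV : (V.val : ZMod p) = V := ZMod.natCast_zmod_val V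
      have hlt := ZMod.val_lt V
      have hcase : V.val = 0 ∨ V.val = 1 ∨ V.val = 2 ∨ V.val = p - 1 := by
        by_contra hcon
        push Not at hcon
        have := hi' (by omega)
        omega
      rcases hcase with h | h | h | h
      · rw [h] at hvV
        apply b1
        have : u - c₁ = 0 := by rw [← hVe, ← hvV]; simp
        exact sub_eq_zero.1 this
      · rw [h] at hvV
        apply b2
        rw [← hvV] at hVe
        simp only [Nat.cast_one] at hVe
        have : u - c₂ = 0 := by linear_combination (-1 : ZMod p) * hVe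
        exact sub_eq_zero.1 this
      · rw [h] at hvV
        apply b4
        rw [← hvV] at hVe
        have h2' : ((2 : ℕ) : ZMod p) = 2 := by norm_num
        rw [h2'] at hVe
        rw [hu2]
        linear_combination (-1 : ZMod p) * hVe
      · rw [h, Nat.cast_sub (by omega)] at hvV
        apply b3
        rw [← hvV] at hVe
        simp only [CharP.cast_eq_zero, Nat.cast_one] at hVe
        rw [hu1]
        linear_combination (-1 : ZMod p) * hVe
    have hrest2 : ∑ c ∈ (univ.erase c₁).erase c₂, h c = h u₁ + h u₂ := by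
      have m1 : u₁ ∈ (univ.erase c₁).erase c₂ := mem_erase.2 ⟨a3, mem_erase.2 ⟨a1, mem_univ _⟩⟩
      have m2 : u₂ ∈ ((univ.erase c₁).erase c₂).erase u₁ :=
        mem_erase.2 ⟨a5.symm, mem_erase.2 ⟨a2, mem_erase.2 ⟨a4, mem_univ _⟩⟩⟩
      rw [← Finset.add_sum_erase _ h m1, ← Finset.add_sum_erase _ h m2, Finset.sum_eq_zero,
        add_zero]
      intro c hc
      simp only [mem_erase] at hc
      exact hzero c hc.2.2.2.1 hc.2.2.1 hc.2.1 hc.1
    rw [hrest2] at hrest
    by_cases g2 : 2 ≤ h u₂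
    · refine special h c₁ c₂ u₂ h12 a4 a2 2 2 (p - 4) g2 (by omega) (by omega) (by omega) ?_ ?_
      · rw [Nat.cast_sub (by omega : 4 ≤ p), hu2]
        simp only [CharP.cast_eq_zero]
        push_cast
        ring
      · have e1 : 2 * (p - 5) ≤ 2 * (h c₁ - 2) := Nat.mul_le_mul_left _ (by omega)
        have e2 : (p - 4) * 1 ≤ (p - 4) * (h c₂ - (p - 4)) := Nat.mul_le_mul_left _ (by omega)
        omega
    by_cases g1 : 2 ≤ h u₁
    · refine special h c₁ c₂ u₁ h12 a1 a3 2 (p - 4) 2 g1 (by omega) (by omega) (by omega) ?_ ?_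
      · rw [Nat.cast_sub (by omega : 4 ≤ p), hu1]
        simp only [CharP.cast_eq_zero]
        push_cast
        ring
      · have e1 : 2 * (p - 5) ≤ 2 * (h c₂ - 2) := Nat.mul_le_mul_left _ (by omega)
        have e2 : (p - 4) * 1 ≤ (p - 4) * (h c₁ - (p - 4)) := Nat.mul_le_mul_left _ (by omega)
        omega
    -- at most one element over each
    by_cases g3 : 1 ≤ h u₁
    · refine special h c₁ c₂ u₁ h12 a1 a3 1 (p - 2) 1 g3 (by omega) (by omega) (by omega) ?_ ?_
      · rw [Nat.cast_sub (by omega : 2 ≤ p), hu1]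
        simp only [CharP.cast_eq_zero]
        push_cast
        ring
      · have e1 : (p - 2) * 1 ≤ (p - 2) * (h c₁ - (p - 2)) := Nat.mul_le_mul_left _ (by omega)
        omega
    · have g4 : h u₂ = 1 ∧ h u₁ = 0 := by omega
      refine special h c₁ c₂ u₂ h12 a4 a2 1 1 (p - 2) (by omega) (by omega) (by omega) (by omega)
        ?_ ?_
      · rw [Nat.cast_sub (by omega : 2 ≤ p), hu2]
        simp only [CharP.cast_eq_zero]
        push_cast
        ring
      · have e1 : (p - 2) * 1 ≤ (p - 2) * (h c₂ - (p - 2)) := Nat.mul_le_mul_left _ (by omega)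
        omega

end Pool.Agent.H99.HC
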