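import Mathlib

/-!
# The Dias da Silva-Hamidoune theorem

For a prime `p`, a finite set `A` in `ZMod p` and `k ≤ |A|`, the set of sums of `k` distinct
elements of `A` has at least `min (p, k (|A| - k) + 1)` elements.  Proof by the combinatorial
Nullstellensatz (Alon-Nathanson-Ruzsa).
-/

namespace Pool.Agent.H99.HC

open MvPolynomial Finset

variable {p : ℕ} [hp : Fact p.Prime]

/-- the coefficients of a power of the sum of the variables -/
theorem coeff_sum_pow {k : ℕ} (m : ℕ) (hm : m < p) (e : Fin k →₀ ℕ) :
    coeff e ((∑ i, X i : MvPolynomial (Fin k) (ZMod p)) ^ m) =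
      if e.degree = m then (m.factorial : ZMod p) * ∏ i, ((e i).factorial : ZMod p)⁻¹ else 0 := by
  induction m generalizing e with
  | zero =>
    rw [pow_zero, coeff_one]
    by_cases h : e.degree = 0
    · have h0 : e = 0 := by rwa [Finsupp.degree_eq_zero_iff] at h
      subst h0
      simp
    · have h0 : 0 ≠ e := by
        rintro rfl
        exact h (by simp)
      rw [if_neg h0, if_neg h]
  | succ m ih =>
    have hm' : m < p := by omega
    rw [pow_succ, Finset.mul_sum, coeff_sum]
    simp_rw [coeff_mul_X']
    have hterm : ∀ i : Fin k, (if i ∈ e.support then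
        coeff (e - Finsupp.single i 1) ((∑ i, X i : MvPolynomial (Fin k) (ZMod p)) ^ m) else 0) =
        if e.degree = m + 1 then
          (m.factorial : ZMod p) * ((e i : ZMod p) * ∏ i, ((e i).factorial : ZMod p)⁻¹) else 0 := by
      intro i
      by_cases hi : i ∈ e.support
      · rw [if_pos hi, ih hm']
        have hpos : 0 < e i := Nat.pos_of_ne_zero (Finsupp.mem_support_iff.1 hi)
        have hdeg : (e - Finsupp.single i 1).degree + 1 = e.degree := by
          have h1 : e = (e - Finsupp.single i 1) + Finsupp.single i 1 := by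
            rw [tsub_add_cancel_of_le]
            rw [Finsupp.single_le_iff]; exact hpos
          conv_rhs => rw [h1]
          rw [map_add, Finsupp.degree_single]
        by_cases hd : e.degree = m + 1
        · rw [if_pos (by omega), if_pos hd]
          congr 1
          rw [← Finset.mul_prod_erase univ (fun j => ((e j).factorial : ZMod p)⁻¹) (mem_univ i),
            ← Finset.mul_prod_erase univ
              (fun j => (((e - Finsupp.single i 1 : Fin k →₀ ℕ) j).factorial : ZMod p)⁻¹)
              (mem_univ i), ← mul_assoc]
          have hle : e i ≤ m + 1 := by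
            rw [← hd]; exact Finsupp.le_degree i e
          congr 1
          · obtain ⟨n, hn⟩ : ∃ n, e i = n + 1 := ⟨e i - 1, by omega⟩
            have h2 : (e - Finsupp.single i 1 : Fin k →₀ ℕ) i = n := by
              simp [hn]
            rw [h2, hn, Nat.factorial_succ, Nat.cast_mul, mul_inv, ← mul_assoc,
              mul_inv_cancel₀, one_mul]
            intro h0
            rw [ZMod.natCast_eq_zero_iff] at h0
            have := Nat.le_of_dvd (by omega) h0
            omega
          · refine Finset.prod_congr rfl fun j hj => ?_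
            have hji : j ≠ i := Finset.ne_of_mem_erase hj
            have : (e - Finsupp.single i 1 : Fin k →₀ ℕ) j = e j := by
              simp [hji.symm]
            rw [this]
        · rw [if_neg (by omega), if_neg hd]
      · rw [if_neg hi]
        have h0 : e i = 0 := by rwa [Finsupp.notMem_support_iff] at hi
        rw [h0]
        simp
    rw [Finset.sum_congr rfl (fun i _ => hterm i)]
    by_cases hd : e.degree = m + 1
    · simp only [if_pos hd]
      rw [← Finset.mul_sum, ← Finset.sum_mul, ← mul_assoc]
      congr 1
      have : (∑ i, (e i : ZMod p)) = ((m + 1 : ℕ) : ZMod p) := by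
        rw [← hd, Finsupp.degree_eq_sum, Nat.cast_sum]
      rw [this, Nat.factorial_succ, Nat.cast_mul, mul_comm]
    · simp only [if_neg hd, Finset.sum_const_zero]

/-- the exponent vector of a permutation -/
noncomputable def ev {k : ℕ} (σ : Equiv.Perm (Fin k)) : Fin k →₀ ℕ :=
  Finsupp.equivFunOnFinite.symm (fun i => ((σ i : Fin k) : ℕ))

theorem ev_apply {k : ℕ} (σ : Equiv.Perm (Fin k)) (i : Fin k) : ev σ i = (σ i : ℕ) := rfl

theorem ev_degree {k : ℕ} (σ : Equiv.Perm (Fin k)) : (ev σ).degree = ∑ i : Fin k, (i : ℕ) := by
  rw [Finsupp.degree_eq_sum]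
  simp only [ev_apply]
  exact Equiv.sum_comp σ (fun i : Fin k => (i : ℕ))

theorem det_expand {k : ℕ} :
    (Matrix.vandermonde (fun i : Fin k => (X i : MvPolynomial (Fin k) (ZMod p)))).det =
      ∑ σ : Equiv.Perm (Fin k), monomial (ev σ) (((Equiv.Perm.sign σ : ℤ) : ZMod p)) := by
  rw [← Matrix.det_transpose, Matrix.det_apply]
  refine Finset.sum_congr rfl fun σ _ => ?_
  have h1 : ∏ i : Fin k, (Matrix.vandermonde
      (fun i : Fin k => (X i : MvPolynomial (Fin k) (ZMod p)))).transpose (σ i) i =
      monomial (ev σ) 1 := by
    simp only [Matrix.transpose_apply, Matrix.vandermonde_apply]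
    rw [monomial_eq, Finsupp.prod_fintype _ _ (fun i => by simp)]
    simp [ev_apply]
  rw [h1, Units.smul_def, ← Int.cast_smul_eq_zsmul (ZMod p), smul_monomial, smul_eq_mul, mul_one]

theorem coeff_main {k : ℕ} (m : ℕ) (hm : m < p) (t : Fin k →₀ ℕ) (ht : ∀ i, t i < p)
    (hinj : Function.Injective t) (i : ℕ) (him : i ≤ m)
    (hdeg : t.degree = m + ∑ i : Fin k, (i : ℕ)) :
    coeff t ((∑ i, X i : MvPolynomial (Fin k) (ZMod p)) ^ i *
      (Matrix.vandermonde (fun i : Fin k => (X i : MvPolynomial (Fin k) (ZMod p)))).det) =
      if i = m then (m.factorial : ZMod p) * (∏ i, ((t i).factorial : ZMod p)⁻¹) *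
        (Matrix.vandermonde (fun i : Fin k => ((t i : ℕ) : ZMod p))).det else 0 := by
  rw [det_expand, Finset.mul_sum, coeff_sum]
  simp_rw [coeff_mul_monomial']
  have hterm : ∀ σ : Equiv.Perm (Fin k), (if ev σ ≤ t then
      coeff (t - ev σ) ((∑ i, X i : MvPolynomial (Fin k) (ZMod p)) ^ i) *
        ((Equiv.Perm.sign σ : ℤ) : ZMod p) else 0) =
      if i = m then (m.factorial : ZMod p) * (∏ i, ((t i).factorial : ZMod p)⁻¹) *
        (((Equiv.Perm.sign σ : ℤ) : ZMod p) *
          ∏ j, (((t j).descFactorial (σ j) : ℕ) : ZMod p)) else 0 := by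
    intro σ
    by_cases hle : ev σ ≤ t
    · rw [if_pos hle, coeff_sum_pow i (by omega)]
      have hd : (t - ev σ).degree + (ev σ).degree = t.degree := by
        rw [← map_add, tsub_add_cancel_of_le hle]
      rw [ev_degree] at hd
      by_cases h : i = m
      · subst h
        rw [if_pos (by omega), if_pos rfl]
        have : ∏ j, (((t - ev σ : Fin k →₀ ℕ) j).factorial : ZMod p)⁻¹ =
            (∏ j, ((t j).factorial : ZMod p)⁻¹) *
              ∏ j, (((t j).descFactorial (σ j) : ℕ) : ZMod p) := by
          rw [← Finset.prod_mul_distrib]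
          refine Finset.prod_congr rfl fun j _ => ?_
          have hj : (σ j : ℕ) ≤ t j := by
            have := hle j
            rwa [ev_apply] at this
          have h1 : (t - ev σ : Fin k →₀ ℕ) j = t j - σ j := by
            simp [ev_apply]
          rw [h1]
          have h2 := Nat.factorial_mul_descFactorial hj
          have h3 : ((t j).factorial : ZMod p) ≠ 0 := by
            intro h0
            rw [ZMod.natCast_eq_zero_iff, (hp.out).dvd_factorial] at h0
            have := ht j
            omega
          have h4 : (((t j - σ j : ℕ)).factorial : ZMod p) ≠ 0 := by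
            intro h0
            rw [ZMod.natCast_eq_zero_iff, (hp.out).dvd_factorial] at h0
            have := ht j
            omega
          rw [eq_comm, inv_mul_eq_div, div_eq_iff h3, ← h2, Nat.cast_mul, ← mul_assoc,
            inv_mul_cancel₀ h4, one_mul]
        rw [this]
        ring
      · rw [if_neg (by omega), if_neg h, zero_mul]
    · rw [if_neg hle]
      split_ifs with h
      · have : ∃ j, t j < σ j := by
          by_contra hcon
          push Not at hcon
          exact hle (fun j => by rw [ev_apply]; exact hcon j)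
        obtain ⟨j, hj⟩ := this
        have hz : ∏ j, (((t j).descFactorial (σ j) : ℕ) : ZMod p) = 0 :=
          Finset.prod_eq_zero (mem_univ j) (by
            rw [Nat.descFactorial_eq_zero_iff_lt.2 hj, Nat.cast_zero])
        rw [hz, mul_zero, mul_zero]
      · rfl
  rw [Finset.sum_congr rfl (fun σ _ => hterm σ)]
  split_ifs with h
  · rw [← Finset.mul_sum]
    congr 1
    rw [Matrix.det_eval_matrixOfPolynomials_eq_det_vandermonde
      (fun i : Fin k => ((t i : ℕ) : ZMod p)) (fun j => descPochhammer (ZMod p) j)
      (fun j => descPochhammer_natDegree (ZMod p) j) (fun j => monic_descPochhammer (ZMod p) j),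
      ← Matrix.det_transpose, Matrix.det_apply]
    refine Finset.sum_congr rfl fun σ _ => ?_
    rw [Units.smul_def, zsmul_eq_mul]
    congr 1
    refine Finset.prod_congr rfl fun j _ => ?_
    simp only [Matrix.transpose_apply, Matrix.of_apply]
    rw [descPochhammer_eval_eq_descFactorial]
  · simp

/-- the set of sums of `k` distinct elements of `A` -/
def ksum {G : Type*} [AddCommGroup G] [DecidableEq G] (A : Finset G) (k : ℕ) : Finset G :=
  (A.powersetCard k).image (fun T => ∑ x ∈ T, x)

theorem mem_ksum {G : Type*} [AddCommGroup G] [DecidableEq G] {A : Finset G} {k : ℕ} {z : G} :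
    z ∈ ksum A k ↔ ∃ T ⊆ A, T.card = k ∧ ∑ x ∈ T, x = z := by
  simp only [ksum, mem_image, mem_powersetCard, and_assoc]

theorem key (A : Finset (ZMod p)) (k m : ℕ) (hm : m < p) (t : Fin k →₀ ℕ)
    (ht : ∀ i, t i < A.card) (hinj : Function.Injective t)
    (hdeg : t.degree = m + ∑ i : Fin k, (i : ℕ)) : m + 1 ≤ (ksum A k).card := by
  classical
  by_contra hcon
  push Not at hcon
  have hN : (ksum A k).card ≤ m := by omega
  have hAp : A.card ≤ p := by
    have := Finset.card_le_univ A
    rwa [ZMod.card] at this
  let P : Polynomial (ZMod p) :=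
    Polynomial.X ^ (m - (ksum A k).card) * ∏ c ∈ ksum A k, (Polynomial.X - Polynomial.C c)
  have hPm : P.Monic := (Polynomial.monic_X_pow _).mul
    (Polynomial.monic_prod_of_monic _ _ (fun c _ => Polynomial.monic_X_sub_C c))
  have hPd : P.natDegree = m := by
    have h1 : (∏ c ∈ ksum A k, (Polynomial.X - Polynomial.C c)).natDegree = (ksum A k).card := by
      rw [Polynomial.natDegree_prod_of_monic _ _ (fun c _ => Polynomial.monic_X_sub_C c)]
      simp
    rw [Polynomial.Monic.natDegree_mul (Polynomial.monic_X_pow _)
      (Polynomial.monic_prod_of_monic _ _ (fun c _ => Polynomial.monic_X_sub_C c)), h1,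
      Polynomial.natDegree_X_pow]
    omega
  let L : MvPolynomial (Fin k) (ZMod p) := ∑ i, X i
  let V : MvPolynomial (Fin k) (ZMod p) :=
    (Matrix.vandermonde (fun i : Fin k => (X i : MvPolynomial (Fin k) (ZMod p)))).det
  let F : MvPolynomial (Fin k) (ZMod p) := Polynomial.aeval L P * V
  have hFsum : F = ∑ i ∈ Finset.range (m + 1), P.coeff i • (L ^ i * V) := by
    simp only [F]
    rw [Polynomial.aeval_eq_sum_range, hPd, Finset.sum_mul]
    exact Finset.sum_congr rfl (fun i _ => by rw [smul_mul_assoc])
  have hcoeff : F.coeff t ≠ 0 := by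
    rw [hFsum, coeff_sum, Finset.sum_eq_single m]
    · rw [coeff_smul, coeff_main m hm t (fun i => lt_of_lt_of_le (ht i) hAp) hinj m le_rfl hdeg,
        if_pos rfl]
      have h1 : P.coeff m = 1 := by
        have := hPm.coeff_natDegree
        rwa [hPd] at this
      rw [h1, one_smul]
      refine mul_ne_zero (mul_ne_zero ?_ ?_) ?_
      · intro h0
        rw [ZMod.natCast_eq_zero_iff, (hp.out).dvd_factorial] at h0
        omega
      · rw [Finset.prod_ne_zero_iff]
        intro i _ h0
        rw [inv_eq_zero, ZMod.natCast_eq_zero_iff, (hp.out).dvd_factorial] at h0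
        have := ht i
        omega
      · rw [Matrix.det_vandermonde_ne_zero_iff]
        intro a b hab
        have h2 : ((t a : ℕ) : ZMod p) = ((t b : ℕ) : ZMod p) := hab
        rw [ZMod.natCast_eq_natCast_iff'] at h2
        rw [Nat.mod_eq_of_lt (lt_of_lt_of_le (ht a) hAp),
          Nat.mod_eq_of_lt (lt_of_lt_of_le (ht b) hAp)] at h2
        exact hinj h2
    · intro i hi him
      rw [Finset.mem_range] at hi
      rw [coeff_smul, coeff_main m hm t (fun i => lt_of_lt_of_le (ht i) hAp) hinj i (by omega) hdeg,
        if_neg him, smul_zero]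
    · intro h
      exact absurd (Finset.mem_range.2 (by omega)) h
  have hLdeg : L.totalDegree ≤ 1 := by
    refine (totalDegree_finsetSum _ _).trans (Finset.sup_le fun i _ => ?_)
    rw [totalDegree_X]
  have hVdeg : V.totalDegree ≤ ∑ i : Fin k, (i : ℕ) := by
    simp only [V]
    rw [det_expand]
    refine (totalDegree_finsetSum _ _).trans (Finset.sup_le fun σ _ => ?_)
    refine (totalDegree_monomial_le _ _).trans ?_
    rw [← ev_degree σ]
    exact le_of_eq rfl
  have hdegF : F.totalDegree = t.degree := by
    apply le_antisymm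
    · rw [hdeg, hFsum]
      refine (totalDegree_finsetSum _ _).trans (Finset.sup_le (fun i hi => ?_))
      refine (totalDegree_smul_le _ _).trans ?_
      refine (totalDegree_mul _ _).trans ?_
      have h2 : (L ^ i).totalDegree ≤ i := by
        refine (totalDegree_pow _ _).trans ?_
        calc i * L.totalDegree ≤ i * 1 := Nat.mul_le_mul_left _ hLdeg
          _ = i := mul_one i
      rw [Finset.mem_range] at hi
      omega
    · have := le_totalDegree (p := F) (s := t) (mem_support_iff.2 hcoeff)
      rw [Finsupp.degree_apply]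
      exact this
  obtain ⟨x, hx, hxF⟩ := combinatorial_nullstellensatz_exists_eval_nonzero F t hcoeff hdegF
    (fun _ => A) ht
  apply hxF
  have heval : eval x F = P.eval (∑ i, x i) * (Matrix.vandermonde x).det := by
    simp only [F]
    rw [map_mul]
    congr 1
    · have h1 : eval x (Polynomial.aeval L P) = (MvPolynomial.aeval x : _ →ₐ[ZMod p] ZMod p)
          (Polynomial.aeval L P) := by
        rw [MvPolynomial.aeval_eq_eval]
      rw [h1, ← Polynomial.aeval_algHom_apply]
      have h2 : (MvPolynomial.aeval x : _ →ₐ[ZMod p] ZMod p) L = ∑ i, x i := by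
        simp [L]
      rw [h2]
      simp [Polynomial.aeval_def, Polynomial.eval₂_eq_eval_map]
    · simp only [V]
      rw [RingHom.map_det]
      congr 1
      ext a b
      simp [Matrix.vandermonde_apply]
  rw [heval]
  by_cases hxi : Function.Injective x
  · have hmem : ∑ i, x i ∈ ksum A k := by
      rw [mem_ksum]
      refine ⟨Finset.univ.image x, ?_, ?_, ?_⟩
      · intro y hy
        rw [mem_image] at hy
        obtain ⟨i, _, rfl⟩ := hy
        exact hx i
      · rw [Finset.card_image_of_injective _ hxi, Finset.card_univ, Fintype.card_fin]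
      · rw [Finset.sum_image (fun a _ b _ h => hxi h)]
    have : P.eval (∑ i, x i) = 0 := by
      simp only [P]
      rw [Polynomial.eval_mul, Polynomial.eval_prod,
        Finset.prod_eq_zero hmem (by
          rw [Polynomial.eval_sub, Polynomial.eval_X, Polynomial.eval_C, sub_self]), mul_zero]
    rw [this, zero_mul]
  · have : (Matrix.vandermonde x).det = 0 := by
      by_contra h
      rw [← ne_eq, Matrix.det_vandermonde_ne_zero_iff] at h
      exact hxi h
    rw [this, mul_zero]

theorem exists_exponents (n k m : ℕ) (hk : k ≤ n) (hm : m ≤ k * (n - k)) :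
    ∃ t : Fin k →₀ ℕ, (∀ i, t i < n) ∧ Function.Injective t ∧
      t.degree = m + ∑ i : Fin k, (i : ℕ) := by
  rcases Nat.eq_zero_or_pos k with rfl | hk0
  · refine ⟨0, fun i => i.elim0, fun i => i.elim0, ?_⟩
    have : m = 0 := by simpa using hm
    simp [this]
  set q := m / k with hq
  set r := m % k with hr
  have hrk : r < k := Nat.mod_lt _ hk0
  have hmq : k * q + r = m := Nat.div_add_mod m k
  refine ⟨Finsupp.equivFunOnFinite.symm (fun i : Fin k => (i : ℕ) + q + if k - r ≤ (i : ℕ) then 1 else 0),
    ?_, ?_, ?_⟩
  · intro i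
    have hi := i.2
    show (i : ℕ) + q + (if k - r ≤ (i : ℕ) then 1 else 0) < n
    have hqn : q ≤ n - k := by
      by_contra hcon
      push Not at hcon
      have : k * (n - k + 1) ≤ k * q := Nat.mul_le_mul_left _ hcon
      have h2 : k * (n - k + 1) = k * (n - k) + k := by ring
      omega
    by_cases hq2 : q = n - k
    · have : r = 0 := by
        rw [hq2] at hmq
        omega
      rw [if_neg (by omega)]
      omega
    · split_ifs <;> omega
  · intro a b hab
    have h1 : (a : ℕ) + q + (if k - r ≤ (a : ℕ) then 1 else 0) =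
      (b : ℕ) + q + (if k - r ≤ (b : ℕ) then 1 else 0) := hab
    apply Fin.ext
    split_ifs at h1 <;> omega
  · rw [Finsupp.degree_eq_sum]
    show ∑ i : Fin k, ((i : ℕ) + q + if k - r ≤ (i : ℕ) then 1 else 0) = _
    rw [Finset.sum_add_distrib, Finset.sum_add_distrib, Finset.sum_const, Finset.card_univ,
      Fintype.card_fin, smul_eq_mul]
    have h2 : ∑ i : Fin k, (if k - r ≤ (i : ℕ) then 1 else 0) = r := by
      rw [Fin.sum_univ_eq_sum_range (fun i => if k - r ≤ i then 1 else 0) k,
        ← Finset.sum_filter, Finset.sum_const, smul_eq_mul, mul_one]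
      have : (Finset.range k).filter (fun i => k - r ≤ i) = Finset.Ico (k - r) k := by
        ext i
        simp only [mem_filter, mem_range, mem_Ico]
        omega
      rw [this, Nat.card_Ico]
      omega
    rw [h2]
    omega

/-- **Dias da Silva-Hamidoune** -/
theorem ddsh (A : Finset (ZMod p)) (k : ℕ) (hk : k ≤ A.card) :
    min p (k * (A.card - k) + 1) ≤ (ksum A k).card := by
  have hp1 := (hp.out).one_lt
  obtain ⟨t, h1, h2, h3⟩ := exists_exponents A.card k (min (p - 1) (k * (A.card - k))) hk
    (min_le_right _ _)
  have := key A k _ (by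
    have := min_le_left (p - 1) (k * (A.card - k))
    omega) t h1 h2 h3
  rcases le_total (p - 1) (k * (A.card - k)) with h | h
  · rw [min_eq_left h] at this
    rw [min_eq_left (by omega)]
    omega
  · rw [min_eq_right h] at this
    rw [min_eq_right (by omega)]
    exact this

end Pool.Agent.H99.HC
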