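import Pool.Agent.H99.HC.Cases

/-!
# Fibre vectors, conclusion
-/

namespace Pool.Agent.H99.HC

open Finset

variable {p : ℕ} [hp : Fact p.Prime]

theorem KK_lt : ∀ p ∈ PL, KK p + 3 < p := by decide

theorem caseSmall17 (hpl : p ∈ PL) (h17 : 17 ≤ p) (h : ZMod p → ℕ) (hsum : ∑ c, h c + 1 = 2 * p)
    (hK : ∀ c, h c ≤ KK p) (hf : (univ.filter (fun c => 1 ≤ h c)).card ≤ KK p) : Good h := by
  classical
  set F := univ.filter (fun c => 1 ≤ h c) with hF
  have hKp := KK_lt p hpl
  obtain ⟨hE1, hE2⟩ := arithE p hpl h17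
  -- the weights
  have hw : ∑ c ∈ F, (h c - 1) + F.card = ∑ c, h c := by
    rw [Finset.card_eq_sum_ones, ← Finset.sum_add_distrib,
      ← Finset.sum_filter_add_sum_filter_not univ (fun c => 1 ≤ h c)]
    have e : ∑ c ∈ univ.filter (fun c => ¬ 1 ≤ h c), h c = 0 := by
      refine Finset.sum_eq_zero fun c hc => ?_
      rw [mem_filter] at hc
      omega
    rw [e, add_zero]
    refine Finset.sum_congr rfl fun c hc => ?_
    rw [mem_filter] at hc
    omega
  have hfilter : ∀ I : Finset (ZMod p), ∑ c ∈ I.filter (fun c => 2 ≤ h c), (h c - 1) =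
      ∑ c ∈ I, (h c - 1) := by
    intro I
    rw [← Finset.sum_filter_add_sum_filter_not I (fun c => 2 ≤ h c)]
    have e : ∑ c ∈ I.filter (fun c => ¬ 2 ≤ h c), (h c - 1) = 0 := by
      refine Finset.sum_eq_zero fun c hc => ?_
      rw [mem_filter] at hc
      omega
    rw [e, add_zero]
  rcases Nat.lt_or_ge (II p) F.card with hlt | hge
  · obtain ⟨I, hI1, hI2, hI3⟩ := exists_heavy (fun c => h c - 1) F (II p) hlt.le
    refine strat3 h hsum (I.filter (fun c => 2 ≤ h c)) (KK p) (fun c hc => (mem_filter.1 hc).2)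
      hK ?_ ?_
    · rw [hfilter]
      have h1 := hE2 F.card (by omega) hlt
      have h2 : ∑ c ∈ F, (h c - 1) = 2 * p - 1 - F.card := by omega
      rw [← h2] at h1
      have h3 : F.card * (p - 1) ≤ F.card * ∑ c ∈ I, (h c - 1) := by
        rw [mul_comm]
        exact h1.trans hI3
      have h4 := Nat.le_of_mul_le_mul_left h3 (by omega)
      omega
    · have : (I.filter (fun c => 2 ≤ h c)).card ≤ II p := by
        rw [← hI2]; exact card_filter_le _ _
      omega
  · refine strat3 h hsum (F.filter (fun c => 2 ≤ h c)) (KK p) (fun c hc => (mem_filter.1 hc).2)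
      hK ?_ ?_
    · rw [hfilter]
      omega
    · have : (F.filter (fun c => 2 ≤ h c)).card ≤ F.card := card_filter_le _ _
      omega

theorem caseSmall11 (hp2 : p = 11 ∨ p = 13) (h : ZMod p → ℕ) (hsum : ∑ c, h c + 1 = 2 * p)
    (hK : ∀ c, h c ≤ 6) (hf : (univ.filter (fun c => 1 ≤ h c)).card ≤ 6) : Good h := by
  classical
  set N : ℕ → ℕ := fun k => (univ.filter (fun c => h c = k)).card with hN
  have hNs : ∀ k, N k = ∑ c, if h c = k then 1 else 0 := fun k => by
    simp only [hN]
    rw [Finset.card_filter]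
  have e1 : ∑ c, h c = N 1 + 2 * N 2 + 3 * N 3 + 4 * N 4 + 5 * N 5 + 6 * N 6 := by
    simp only [hNs, Finset.mul_sum, ← Finset.sum_add_distrib]
    refine Finset.sum_congr rfl fun c _ => ?_
    have := hK c
    interval_cases h c <;> simp
  have e2 : (univ.filter (fun c => 1 ≤ h c)).card = N 1 + N 2 + N 3 + N 4 + N 5 + N 6 := by
    rw [Finset.card_filter]
    simp only [hNs, ← Finset.sum_add_distrib]
    refine Finset.sum_congr rfl fun c _ => ?_
    have := hK c
    interval_cases h c <;> simp
  have e3 : (univ.filter (fun c => h c % 2 = 1)).card = N 1 + N 3 + N 5 := by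
    rw [Finset.card_filter]
    simp only [hNs, ← Finset.sum_add_distrib]
    refine Finset.sum_congr rfl fun c _ => ?_
    have := hK c
    interval_cases h c <;> simp
  have e4 : (univ.filter (fun c => h c % 2 = 0 ∧ 2 ≤ h c)).card = N 2 + N 4 + N 6 := by
    rw [Finset.card_filter]
    simp only [hNs, ← Finset.sum_add_distrib]
    refine Finset.sum_congr rfl fun c _ => ?_
    have := hK c
    interval_cases h c <;> simp
  have e5 : (univ.filter (fun c => h c % 2 = 0 ∧ 4 ≤ h c)).card = N 4 + N 6 := by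
    rw [Finset.card_filter]
    simp only [hNs, ← Finset.sum_add_distrib]
    refine Finset.sum_congr rfl fun c _ => ?_
    have := hK c
    interval_cases h c <;> simp
  have e6 : (univ.filter (fun c => h c % 2 = 1 ∧ 3 ≤ h c)).card = N 3 + N 5 := by
    rw [Finset.card_filter]
    simp only [hNs, ← Finset.sum_add_distrib]
    refine Finset.sum_congr rfl fun c _ => ?_
    have := hK c
    interval_cases h c <;> simp
  have e7 : ∑ c, h c ^ 2 / 4 = N 2 + 2 * N 3 + 4 * N 4 + 6 * N 5 + 9 * N 6 := by
    simp only [hNs, Finset.mul_sum, ← Finset.sum_add_distrib]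
    refine Finset.sum_congr rfl fun c _ => ?_
    have := hK c
    interval_cases h c <;> simp
  obtain ⟨t, y, x, ht, hy, hx, hgain, hphi⟩ := arithF0 p hp2 (N 1) (N 2) (N 3) (N 4) (N 5) (N 6)
    (by omega) (by omega)
  obtain ⟨T, hT1, hT2⟩ := Finset.exists_subset_card_eq (s := univ.filter
    (fun c => h c % 2 = 1 ∧ 3 ≤ h c)) (n := t) (by rw [e6]; exact ht)
  obtain ⟨Y, hY1, hY2⟩ := Finset.exists_subset_card_eq (s := univ.filter
    (fun c => h c % 2 = 0 ∧ 4 ≤ h c)) (n := y) (by rw [e5]; exact hy)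
  have hYE : Y ⊆ univ.filter (fun c => h c % 2 = 0 ∧ 2 ≤ h c) := by
    intro c hc
    have := hY1 hc
    rw [mem_filter] at this ⊢
    exact ⟨mem_univ _, this.2.1, by omega⟩
  obtain ⟨X, hX1, hX2⟩ := Finset.exists_subset_card_eq (s := (univ.filter
    (fun c => h c % 2 = 0 ∧ 2 ≤ h c)) \ Y) (n := x) (by
      rw [card_sdiff_of_subset hYE, e4, hY2]; omega)
  refine strat4 h hsum T X Y ?_ ?_ ?_ ?_ ?_ ?_
  · intro c hc
    exact (mem_filter.1 (hT1 hc)).2
  · intro c hc
    exact (mem_filter.1 (mem_sdiff.1 (hX1 hc)).1).2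
  · intro c hc
    exact (mem_filter.1 (hY1 hc)).2
  · rw [Finset.disjoint_left]
    intro c hc
    exact (mem_sdiff.1 (hX1 hc)).2
  · rw [hT2, hX2, hY2, e7]; exact hgain
  · rw [hT2, hX2, hY2, e3]; exact hphi

theorem good_of_sq (hpl : p ∈ PL) (h : ZMod p → ℕ) (hsum : ∑ c, h c + 1 = 2 * p)
    (hle : ∀ c, h c < p) (hE : 6 * p ≤ ∑ c, h c ^ 2 + 10) : Good h := by
  classical
  have hp11 : 11 ≤ p := by
    simp only [PL, List.mem_cons, List.not_mem_nil, or_false] at hpl
    omega
  by_cases hbig : ∃ c, KK p < h c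
  · obtain ⟨c₁, -, hc₁⟩ := Finset.exists_max_image univ h univ_nonempty
    have hK1 : KK p < h c₁ := by
      obtain ⟨c, hc⟩ := hbig
      exact lt_of_lt_of_le hc (hc₁ c (mem_univ c))
    have hne : ((univ : Finset (ZMod p)).erase c₁).Nonempty := by
      rw [← card_pos, card_erase_of_mem (mem_univ _), Finset.card_univ, ZMod.card]
      omega
    obtain ⟨c₂, hc₂m, hc₂⟩ := Finset.exists_max_image (univ.erase c₁) h hne
    have h12 : c₁ ≠ c₂ := (mem_erase.1 hc₂m).1.symm
    by_cases hb : h c₂ < p - 3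
    · obtain ⟨r, -, hr1, hr2, hr3⟩ := arithA p hpl (h c₁) (hle c₁) hK1 (h c₂) hb
        (hc₁ c₂ (mem_univ _))
      refine strat1 h hsum c₁ r hr1 (hle c₁).le hr2 ?_
      intro c hc
      have := hc₂ c (mem_erase.2 ⟨hc, mem_univ _⟩)
      omega
    · exact caseSpecial hpl h hsum hle c₁ c₂ h12 (hc₁ c₂ (mem_univ _)) (by omega)
  · push Not at hbig
    set O := univ.filter (fun c => h c % 2 = 1) with hO
    set Ev := univ.filter (fun c => h c % 2 = 0 ∧ 2 ≤ h c) with hEv
    set Q := ∑ c, h c ^ 2 / 4 with hQ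
    have hOp : O.card ≤ p := by
      have := Finset.card_le_univ O
      rwa [ZMod.card] at this
    have e1 : ∑ c, h c ^ 2 = 4 * Q + O.card := by
      rw [hQ, hO, Finset.card_filter, Finset.mul_sum, ← Finset.sum_add_distrib]
      refine Finset.sum_congr rfl fun c _ => ?_
      obtain ⟨k, hk | hk⟩ : ∃ k, h c = 2 * k ∨ h c = 2 * k + 1 := ⟨h c / 2, by omega⟩
      · rw [hk, if_neg (by omega), show (2 * k) ^ 2 = 4 * (k ^ 2) by ring]
        omega
      · rw [hk, if_pos (by omega), show (2 * k + 1) ^ 2 = 4 * (k ^ 2 + k) + 1 by ring]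
        omega
    have e2 : ∑ c, h c = 2 * ∑ c, h c / 2 + O.card := by
      rw [hO, Finset.card_filter, Finset.mul_sum, ← Finset.sum_add_distrib]
      refine Finset.sum_congr rfl fun c _ => ?_
      split_ifs <;> omega
    have ho2 : O.card % 2 = 1 := by omega
    have e3 : (univ.filter (fun c => 1 ≤ h c)).card = O.card + Ev.card := by
      rw [hO, hEv, Finset.card_filter, Finset.card_filter, Finset.card_filter,
        ← Finset.sum_add_distrib]
      refine Finset.sum_congr rfl fun c _ => ?_
      split_ifs <;> omega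
    rcases Nat.lt_or_ge Ev.card (Q + 1 - p) with hL | hL
    · by_cases hfK : KK p < O.card + Ev.card
      · refine strat4 h hsum ∅ Ev ∅ (by simp) (fun c hc => (mem_filter.1 hc).2) (by simp)
          (by simp) ?_ ?_
        · simp only [card_empty]
          omega
        · simp only [card_empty]
          have h1 := arithB p hpl
          have h2 : (KK p + 1) ^ 2 / 4 ≤ (O.card + Ev.card + 0) ^ 2 / 4 :=
            Nat.div_le_div_right (Nat.pow_le_pow_left (by omega) 2)
          rw [← hO]
          omega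
      · rcases Nat.lt_or_ge p 17 with h17 | h17
        · have hp2 : p = 11 ∨ p = 13 := by
            simp only [PL, List.mem_cons, List.not_mem_nil, or_false] at hpl
            omega
          have hK6 : KK p = 6 := by
            rcases hp2 with rfl | rfl <;> rfl
          refine caseSmall11 hp2 h hsum (fun c => ?_) ?_
          · rw [← hK6]; exact hbig c
          · rw [← hK6, e3]; omega
        · exact caseSmall17 hpl h17 h hsum hbig (by rw [e3]; omega)
    · obtain ⟨X, hX1, hX2⟩ := Finset.exists_subset_card_eq hL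
      refine strat4 h hsum ∅ X ∅ (by simp) (fun c hc => (mem_filter.1 (hX1 hc)).2) (by simp)
        (by simp) ?_ ?_
      · simp only [card_empty]
        omega
      · simp only [card_empty]
        rw [← hO, hX2]
        have := arithC p hpl O.card (Q + 1 - p) hOp ho2 (by omega)
        simp only [add_zero, zero_add]
        omega

end Pool.Agent.H99.HC
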