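import Pool.Agent.H99.HC.DDSH

/-!
# Sums of sums of distinct elements: Cauchy-Davenport and Dias da Silva-Hamidoune together
-/

namespace Pool.Agent.H99.HC

open Finset
open scoped Pointwise

variable {p : ℕ} [hp : Fact p.Prime]

/-- the sums with one summand from every `D j`, `j ∈ J` -/
theorem cd_family {ι : Type*} [DecidableEq ι] (J : Finset ι) (D : ι → Finset (ZMod p)) (a : ι → ℕ)
    (hD : ∀ j ∈ J, min p (a j + 1) ≤ (D j).card) :
    ∃ E : Finset (ZMod p), min p (∑ j ∈ J, a j + 1) ≤ E.card ∧
      ∀ z ∈ E, ∃ d : ι → ZMod p, (∀ j ∈ J, d j ∈ D j) ∧ ∑ j ∈ J, d j = z := by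
  classical
  induction J using Finset.induction_on with
  | empty =>
    refine ⟨{0}, by simp, fun z hz => ⟨fun _ => 0, by simp, ?_⟩⟩
    rw [mem_singleton] at hz
    simp [hz]
  | insert i J hi ih =>
    obtain ⟨E, hE, hE2⟩ := ih (fun j hj => hD j (mem_insert_of_mem hj))
    have hDi := hD i (mem_insert_self i J)
    have hp1 := (hp.out).pos
    have hne1 : (D i).Nonempty := by
      rw [← card_pos]
      have : 0 < min p (a i + 1) := by
        rw [lt_min_iff]; omega
      omega
    have hne2 : E.Nonempty := by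
      rw [← card_pos]
      have : 0 < min p (∑ j ∈ J, a j + 1) := by
        rw [lt_min_iff]; omega
      omega
    refine ⟨D i + E, ?_, ?_⟩
    · have h := ZMod.cauchy_davenport hp.out hne1 hne2
      rw [Finset.sum_insert hi]
      refine le_trans ?_ h
      rw [le_min_iff]
      refine ⟨min_le_left _ _, ?_⟩
      rcases le_total p (a i + 1) with h1 | h1
      · rw [min_eq_left h1] at hDi
        have := min_le_left p (a i + ∑ j ∈ J, a j + 1)
        have := card_pos.2 hne2
        omega
      · rw [min_eq_right h1] at hDi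
        rcases le_total p (∑ j ∈ J, a j + 1) with h2 | h2
        · rw [min_eq_left h2] at hE
          have := min_le_left p (a i + ∑ j ∈ J, a j + 1)
          omega
        · rw [min_eq_right h2] at hE
          have := min_le_right p (a i + ∑ j ∈ J, a j + 1)
          omega
    · intro z hz
      rw [mem_add] at hz
      obtain ⟨x, hx, y, hy, rfl⟩ := hz
      obtain ⟨d, hd1, hd2⟩ := hE2 y hy
      refine ⟨fun j => if j = i then x else d j, ?_, ?_⟩
      · intro j hj
        rw [mem_insert] at hj
        by_cases h : j = i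
        · subst h
          simpa using hx
        · simp only [if_neg h]
          exact hd1 j (hj.resolve_left h)
      · rw [Finset.sum_insert hi, if_pos rfl, ← hd2]
        congr 1
        refine Finset.sum_congr rfl fun j hj => ?_
        rw [if_neg]
        rintro rfl
        exact hi hj

/-- every element is a sum of sums of `m j` distinct elements of `F j` -/
theorem family_cover {ι : Type*} [DecidableEq ι] (J : Finset ι) (F : ι → Finset (ZMod p))
    (m : ι → ℕ) (hm : ∀ j ∈ J, m j ≤ (F j).card)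
    (hsum : p ≤ ∑ j ∈ J, m j * ((F j).card - m j) + 1) (z : ZMod p) :
    ∃ U : ι → Finset (ZMod p), (∀ j ∈ J, U j ⊆ F j ∧ (U j).card = m j) ∧
      ∑ j ∈ J, ∑ x ∈ U j, x = z := by
  classical
  obtain ⟨E, hE1, hE2⟩ := cd_family J (fun j => ksum (F j) (m j))
    (fun j => m j * ((F j).card - m j)) (fun j hj => ddsh (F j) (m j) (hm j hj))
  rw [min_eq_left hsum] at hE1
  have hEu : E = univ := by
    apply Finset.eq_univ_of_card
    have := Finset.card_le_univ E
    rw [ZMod.card] at *
    omega
  obtain ⟨d, hd1, hd2⟩ := hE2 z (by rw [hEu]; exact mem_univ z)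
  have : ∀ j ∈ J, ∃ T ⊆ F j, T.card = m j ∧ ∑ x ∈ T, x = d j := fun j hj => by
    have := hd1 j hj
    rwa [mem_ksum] at this
  choose! U hU1 hU2 hU3 using this
  exact ⟨U, fun j hj => ⟨hU1 j hj, hU2 j hj⟩, by
    rw [← hd2]; exact Finset.sum_congr rfl hU3⟩

theorem half_sq (G a : ℕ) :
    (a + G + 1) / 2 - (a + 1) / 2 ≤ G ∧
    ((a + G + 1) / 2 - (a + 1) / 2) * (G - ((a + G + 1) / 2 - (a + 1) / 2)) = G ^ 2 / 4 := by
  obtain ⟨b, hb⟩ : ∃ b, G = 2 * b ∨ G = 2 * b + 1 := ⟨G / 2, by omega⟩
  have key : (a + G + 1) / 2 - (a + 1) / 2 = b ∨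
      ((a + G + 1) / 2 - (a + 1) / 2 = b + 1 ∧ G = 2 * b + 1) := by omega
  rcases key with h | ⟨h, hG⟩
  · rw [h]
    rcases hb with hb | hb
    · subst hb
      refine ⟨by omega, ?_⟩
      rw [show 2 * b - b = b by omega, show (2 * b) ^ 2 = 4 * (b * b) by ring]
      omega
    · subst hb
      refine ⟨by omega, ?_⟩
      rw [show 2 * b + 1 - b = b + 1 by omega,
        show (2 * b + 1) ^ 2 = 4 * (b * (b + 1)) + 1 by ring]
      omega
  · rw [h]
    subst hG
    refine ⟨by omega, ?_⟩
    rw [show 2 * b + 1 - (b + 1) = b by omega,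
      show (2 * b + 1) ^ 2 = 4 * ((b + 1) * b) + 1 by ring]
    omega

/-- the layers of a function -/
def layer (g : ZMod p → ℕ) (j : ℕ) : Finset (ZMod p) := univ.filter (fun c => j < g c)

theorem sum_card_layer (g : ZMod p → ℕ) (M : ℕ) (hM : ∀ c, g c ≤ M) :
    ∑ j ∈ range M, (layer g j).card = ∑ c, g c := by
  simp only [layer, Finset.card_filter]
  rw [Finset.sum_comm]
  refine Finset.sum_congr rfl fun c _ => ?_
  rw [← Finset.card_filter]
  have : (range M).filter (fun j => j < g c) = range (g c) := by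
    ext j
    have := hM c
    simp only [mem_filter, mem_range]
    omega
  rw [this, card_range]

/-- the horizontal lemma: sums of `m` elements of a multiset of `2 m - 1` elements -/
theorem horizontal (g : ZMod p → ℕ) (M m : ℕ) (hM : ∀ c, g c ≤ M) (hg : ∑ c, g c + 1 = 2 * m)
    (hphi : p ≤ ∑ j ∈ range M, (layer g j).card ^ 2 / 4 + 1) (z : ZMod p) :
    ∃ s : ZMod p → ℕ, (∀ c, s c ≤ g c) ∧ ∑ c, s c = m ∧ ∑ c : ZMod p, (s c : ZMod p) * c = z := by
  classical
  set S : ℕ → ℕ := fun j => ∑ i ∈ range j, (layer g i).card with hS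
  set mm : ℕ → ℕ := fun j => (S (j + 1) + 1) / 2 - (S j + 1) / 2 with hmm
  have hSs : ∀ j, S (j + 1) = S j + (layer g j).card := fun j => by
    simp only [hS]
    rw [Finset.sum_range_succ]
  have hmono : ∀ j, (S j + 1) / 2 ≤ (S (j + 1) + 1) / 2 := fun j => by
    rw [hSs]; omega
  have h1 : ∀ j ∈ range M, mm j ≤ (layer g j).card := fun j _ => by
    simp only [hmm]
    rw [hSs]
    exact (half_sq _ _).1
  have h2 : ∑ j ∈ range M, mm j * ((layer g j).card - mm j) =
      ∑ j ∈ range M, (layer g j).card ^ 2 / 4 := by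
    refine Finset.sum_congr rfl fun j _ => ?_
    simp only [hmm]
    rw [hSs]
    exact (half_sq _ _).2
  have h3 : ∑ j ∈ range M, mm j = m := by
    have : ∀ n, ∑ j ∈ range n, mm j = (S n + 1) / 2 := by
      intro n
      induction n with
      | zero => simp [hS]
      | succ n ih =>
        rw [Finset.sum_range_succ, ih]
        have := hmono n
        simp only [hmm]
        omega
    rw [this]
    have : S M = ∑ c, g c := sum_card_layer g M hM
    rw [this]
    omega
  obtain ⟨U, hU1, hU2⟩ := family_cover (range M) (layer g) mm h1 (by rw [h2]; exact hphi) z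
  refine ⟨fun c => ((range M).filter (fun j => c ∈ U j)).card, ?_, ?_, ?_⟩
  · intro c
    have : (range M).filter (fun j => c ∈ U j) ⊆ range (g c) := by
      intro j hj
      rw [mem_filter] at hj
      have := (hU1 j hj.1).1 hj.2
      simp only [layer, mem_filter, mem_univ, true_and] at this
      rw [mem_range]
      exact this
    calc _ ≤ (range (g c)).card := card_le_card this
      _ = g c := card_range _
  · simp only [Finset.card_filter]
    rw [Finset.sum_comm, ← h3]
    refine Finset.sum_congr rfl fun j hj => ?_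
    rw [← (hU1 j hj).2, Finset.card_eq_sum_ones, Finset.sum_ite_mem, Finset.univ_inter]
  · rw [← hU2]
    have : ∀ c : ZMod p, ((((range M).filter (fun j => c ∈ U j)).card : ℕ) : ZMod p) * c =
        ∑ j ∈ range M, if c ∈ U j then c else 0 := by
      intro c
      rw [Finset.card_filter, Nat.cast_sum, Finset.sum_mul]
      refine Finset.sum_congr rfl fun j _ => ?_
      split_ifs <;> simp
    rw [Finset.sum_congr rfl (fun c _ => this c), Finset.sum_comm]
    refine Finset.sum_congr rfl fun j _ => ?_
    rw [Finset.sum_ite_mem, Finset.univ_inter]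

/-- reduction: `r` pairs are reserved in the fibres, the rest is free -/
theorem assemble (h r : ZMod p → ℕ) (M : ℕ) (hsum : ∑ c, h c + 1 = 2 * p)
    (hr : ∀ c, 2 * r c ≤ h c) (hM : ∀ c, h c - 2 * r c ≤ M)
    (hgain : p ≤ ∑ c, r c * (h c - r c) + 1)
    (hphi : p ≤ ∑ j ∈ range M, (layer (fun c => h c - 2 * r c) j).card ^ 2 / 4 + 1) :
    ∃ t : ZMod p → ℕ, (∀ c, t c ≤ h c) ∧ ∑ c, t c = p ∧
      ∑ c : ZMod p, (t c : ZMod p) * c = 0 ∧ p ≤ ∑ c, t c * (h c - t c) + 1 := by
  classical
  have hsr : ∑ c, (h c - 2 * r c) + 2 * ∑ c, r c = ∑ c, h c := by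
    rw [Finset.mul_sum, ← Finset.sum_add_distrib]
    refine Finset.sum_congr rfl fun c _ => ?_
    have := hr c
    omega
  obtain ⟨s, hs1, hs2, hs3⟩ := horizontal (fun c => h c - 2 * r c) M (p - ∑ c, r c) hM
    (by omega) hphi (- ∑ c : ZMod p, (r c : ZMod p) * c)
  refine ⟨fun c => r c + s c, ?_, ?_, ?_, ?_⟩
  · intro c
    have := hs1 c
    have := hr c
    simp only at *
    omega
  · rw [Finset.sum_add_distrib, hs2]
    omega
  · have : ∀ c : ZMod p, ((r c + s c : ℕ) : ZMod p) * c = (r c : ZMod p) * c + (s c : ZMod p) * c := by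
      intro c
      push_cast
      ring
    rw [Finset.sum_congr rfl (fun c _ => this c), Finset.sum_add_distrib, hs3]
    ring
  · refine hgain.trans (Nat.add_le_add_right (Finset.sum_le_sum fun c _ => ?_) 1)
    have h1 := hs1 c
    have h2 := hr c
    obtain ⟨d, hd⟩ : ∃ d, h c = r c + s c + (r c + d) := ⟨h c - 2 * r c - s c, by
      have h3 : s c ≤ h c - 2 * r c := h1
      omega⟩
    rw [hd, show r c + s c + (r c + d) - r c = r c + s c + d by omega,
      show r c + s c + (r c + d) - (r c + s c) = r c + d by omega]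
    nlinarith [Nat.zero_le (s c * d)]

end Pool.Agent.H99.HC
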