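import Pool.Agent.H99.HC.Fibres

/-!
# Sets of `2 p - 1` points of the plane over `ZMod p`
-/

namespace Pool.Agent.H99.HC

open Finset

variable {p : ℕ} [hp : Fact p.Prime]

/-- the points of `S` over `c` -/
def fib (S : Finset (ZMod p × ZMod p)) (c : ZMod p) : Finset (ZMod p) :=
  univ.filter (fun y => (c, y) ∈ S)

theorem mem_fib {S : Finset (ZMod p × ZMod p)} {c y : ZMod p} : y ∈ fib S c ↔ (c, y) ∈ S := by
  simp [fib]

theorem sum_fib (S : Finset (ZMod p × ZMod p)) : ∑ c, (fib S c).card = S.card := by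
  simp only [fib, Finset.card_filter]
  rw [← Finset.sum_product' univ univ (fun c y => if (c, y) ∈ S then 1 else 0)]
  simp only [Prod.mk.eta]
  rw [← Finset.card_filter]
  congr 1
  ext x
  simp

theorem sum_zmod (hp2 : 2 < p) : ∑ y : ZMod p, y = 0 := by
  have h : ∑ y : ZMod p, y = ∑ y : ZMod p, (y + 1) :=
    (Equiv.sum_comp (Equiv.addRight (1 : ZMod p)) (fun y => y)).symm
  -- use the symmetry `y ↦ -y`
  have h2 : ∑ y : ZMod p, y = ∑ y : ZMod p, (-y) :=
    (Equiv.sum_comp (Equiv.neg (ZMod p)) (fun y => y)).symm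
  rw [Finset.sum_neg_distrib] at h2
  have h3 : (2 : ZMod p) * ∑ y : ZMod p, y = 0 := by
    rw [two_mul]
    nth_rewrite 1 [h2]
    exact neg_add_cancel _
  rcases mul_eq_zero.1 h3 with h4 | h4
  · exfalso
    have : ((2 : ℕ) : ZMod p) = 0 := by exact_mod_cast h4
    rw [ZMod.natCast_eq_zero_iff] at this
    have := Nat.le_of_dvd (by norm_num) this
    omega
  · exact h4

/-- a set given by its fibres -/
def ofFib (U : ZMod p → Finset (ZMod p)) : Finset (ZMod p × ZMod p) :=
  (univ ×ˢ univ).filter (fun x => x.2 ∈ U x.1)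

theorem sum_ofFib {M : Type*} [AddCommMonoid M] (U : ZMod p → Finset (ZMod p))
    (f : ZMod p × ZMod p → M) : ∑ x ∈ ofFib U, f x = ∑ c, ∑ y ∈ U c, f (c, y) := by
  unfold ofFib
  rw [Finset.sum_filter, Finset.sum_product]
  refine Finset.sum_congr rfl fun c _ => ?_
  simp only
  rw [Finset.sum_ite_mem, Finset.univ_inter]

theorem vertical (hpl : p ∈ PL) (S : Finset (ZMod p × ZMod p)) (hS : S.card + 1 = 2 * p)
    (hE : 6 * p ≤ ∑ c, (fib S c).card ^ 2 + 10) :
    ∃ T ⊆ S, T.card = p ∧ ∑ x ∈ T, x = 0 := by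
  classical
  have hp11 : 11 ≤ p := by
    simp only [PL, List.mem_cons, List.not_mem_nil, or_false] at hpl
    omega
  by_cases hfull : ∃ c, p ≤ (fib S c).card
  · obtain ⟨c, hc⟩ := hfull
    have hu : fib S c = univ := by
      apply Finset.eq_univ_of_card
      have := Finset.card_le_univ (fib S c)
      rw [ZMod.card] at *
      omega
    refine ⟨univ.image (fun y => (c, y)), ?_, ?_, ?_⟩
    · intro x hx
      rw [mem_image] at hx
      obtain ⟨y, _, rfl⟩ := hx
      exact mem_fib.1 (by rw [hu]; exact mem_univ y)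
    · rw [Finset.card_image_of_injective _ (fun a b h => (Prod.mk.inj h).2), Finset.card_univ,
        ZMod.card]
    · rw [Finset.sum_image (fun a _ b _ h => (Prod.mk.inj h).2)]
      apply Prod.ext
      · rw [Prod.fst_sum]
        simp
      · rw [Prod.snd_sum]
        exact sum_zmod (by omega)
  · push Not at hfull
    obtain ⟨t, ht1, ht2, ht3, ht4⟩ := good_of_sq hpl (fun c => (fib S c).card)
      (by rw [sum_fib]; exact hS) hfull hE
    obtain ⟨U, hU1, hU2⟩ := family_cover univ (fib S) t (fun c _ => ht1 c) ht4 0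
    refine ⟨ofFib U, ?_, ?_, ?_⟩
    · intro x hx
      unfold ofFib at hx
      rw [mem_filter] at hx
      have := (hU1 x.1 (mem_univ _)).1 hx.2
      exact mem_fib.1 this
    · rw [Finset.card_eq_sum_ones, sum_ofFib]
      refine Eq.trans (Finset.sum_congr rfl fun c _ => ?_) ht2
      rw [← Finset.card_eq_sum_ones, (hU1 c (mem_univ _)).2]
    · rw [sum_ofFib]
      apply Prod.ext
      · rw [Prod.fst_sum, Prod.fst_zero, ← ht3]
        refine Finset.sum_congr rfl fun c _ => ?_
        rw [Prod.fst_sum]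
        simp only
        rw [Finset.sum_const, (hU1 c (mem_univ _)).2, nsmul_eq_mul]
      · rw [Prod.snd_sum, Prod.snd_zero, ← hU2]
        refine Finset.sum_congr rfl fun c _ => ?_
        rw [Prod.snd_sum]

/-- the `p + 1` directions -/
def dir : Option (ZMod p) → (ZMod p × ZMod p ≃+ ZMod p × ZMod p)
  | none => AddEquiv.prodComm
  | some a =>
    { toFun := fun x => (x.1 - a * x.2, x.2)
      invFun := fun x => (x.1 + a * x.2, x.2)
      left_inv := fun x => by simp
      right_inv := fun x => by simp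
      map_add' := fun x y => by
        apply Prod.ext
        · simp only [Prod.fst_add, Prod.snd_add]
          ring
        · simp }

theorem exists_dir (x y : ZMod p × ZMod p) : ∃ d, (dir d x).1 = (dir d y).1 := by
  by_cases h : x.2 = y.2
  · exact ⟨none, h⟩
  · refine ⟨some ((x.1 - y.1) / (x.2 - y.2)), ?_⟩
    show x.1 - (x.1 - y.1) / (x.2 - y.2) * x.2 = y.1 - (x.1 - y.1) / (x.2 - y.2) * y.2
    have h1 : x.2 - y.2 ≠ 0 := sub_ne_zero.2 h
    have h2 : (x.1 - y.1) / (x.2 - y.2) * (x.2 - y.2) = x.1 - y.1 := div_mul_cancel₀ _ h1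
    linear_combination (-1 : ZMod p) * h2

theorem sum_sq_fib (S : Finset (ZMod p × ZMod p)) :
    ∑ c, (fib S c).card ^ 2 = ((S ×ˢ S).filter (fun x => x.1.1 = x.2.1)).card := by
  classical
  rw [Finset.card_filter, Finset.sum_product]
  have h1 : ∀ c, (fib S c).card = ∑ x ∈ S, if x.1 = c then 1 else 0 := by
    intro c
    rw [← Finset.card_filter]
    refine Finset.card_bij (fun y _ => (c, y)) ?_ ?_ ?_
    · intro y hy
      rw [mem_filter]
      exact ⟨mem_fib.1 hy, rfl⟩
    · intro a _ b _ h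
      exact (Prod.mk.inj h).2
    · intro x hx
      rw [mem_filter] at hx
      exact ⟨x.2, mem_fib.2 (by rw [← hx.2]; exact hx.1), by rw [← hx.2]⟩
  have h2 : ∀ c, (fib S c).card ^ 2 =
      ∑ x ∈ S, ∑ y ∈ S, if x.1 = c ∧ y.1 = c then 1 else 0 := by
    intro c
    rw [sq, h1, Finset.sum_mul_sum]
    refine Finset.sum_congr rfl fun x _ => Finset.sum_congr rfl fun y _ => ?_
    by_cases a : x.1 = c <;> by_cases b : y.1 = c <;> simp [a, b]
  rw [Finset.sum_congr rfl (fun c _ => h2 c), Finset.sum_comm]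
  refine Finset.sum_congr rfl fun x _ => ?_
  rw [Finset.sum_comm]
  refine Finset.sum_congr rfl fun y _ => ?_
  rw [Finset.sum_eq_single x.1]
  · by_cases h : x.1 = y.1
    · simp [h]
    · rw [if_neg, if_neg h]
      rintro ⟨_, h3⟩
      exact h h3.symm
  · intro c _ hc
    rw [if_neg]
    rintro ⟨h3, _⟩
    exact hc h3.symm
  · simp

theorem exists_good_dir (hp11 : 11 ≤ p) (S : Finset (ZMod p × ZMod p)) (hS : S.card + 1 = 2 * p) :
    ∃ d : Option (ZMod p), 6 * p ≤ ∑ c, (fib (S.map (dir d).toEquiv.toEmbedding) c).card ^ 2 + 10 := by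
  classical
  by_contra hcon
  push Not at hcon
  have h1 : ∀ d : Option (ZMod p), ∑ c, (fib (S.map (dir d).toEquiv.toEmbedding) c).card ^ 2 =
      ∑ x ∈ S, ∑ y ∈ S, if (dir d x).1 = (dir d y).1 then 1 else 0 := by
    intro d
    rw [sum_sq_fib, Finset.card_filter, Finset.sum_product, Finset.sum_map]
    refine Finset.sum_congr rfl fun x _ => ?_
    rw [Finset.sum_map]
    rfl
  have h2 : ∑ d : Option (ZMod p), ∑ x ∈ S, ∑ y ∈ S,
      (if (dir d x).1 = (dir d y).1 then 1 else 0) ≤ (p + 1) * (6 * p - 11) := by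
    calc _ ≤ ∑ d : Option (ZMod p), (6 * p - 11) := by
          refine Finset.sum_le_sum fun d _ => ?_
          have := hcon d
          rw [h1 d] at this
          omega
      _ = (p + 1) * (6 * p - 11) := by
          rw [Finset.sum_const, Finset.card_univ, Fintype.card_option, ZMod.card, smul_eq_mul]
  have h3 : ∑ x ∈ S, ∑ y ∈ S, (if x = y then p + 1 else 1) ≤
      ∑ d : Option (ZMod p), ∑ x ∈ S, ∑ y ∈ S,
        (if (dir d x).1 = (dir d y).1 then 1 else 0) := by
    have hswap : ∑ d : Option (ZMod p), ∑ x ∈ S, ∑ y ∈ S,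
        (if (dir d x).1 = (dir d y).1 then 1 else 0) = ∑ x ∈ S, ∑ y ∈ S,
          ∑ d : Option (ZMod p), (if (dir d x).1 = (dir d y).1 then 1 else 0) := by
      rw [Finset.sum_comm]
      exact Finset.sum_congr rfl fun x _ => Finset.sum_comm
    rw [hswap]
    refine Finset.sum_le_sum fun x _ => ?_
    refine Finset.sum_le_sum fun y _ => ?_
    by_cases h : x = y
    · subst h
      simp [ZMod.card]
    · rw [if_neg h]
      obtain ⟨d, hd⟩ := exists_dir x y
      have h1 := Finset.single_le_sum (s := univ)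
            (f := fun d : Option (ZMod p) => if (dir d x).1 = (dir d y).1 then (1 : ℕ) else 0)
            (fun _ _ => Nat.zero_le _) (mem_univ d)
      simp only [if_pos hd] at h1
      exact h1
  have h4 : ∑ x ∈ S, ∑ y ∈ S, (if x = y then p + 1 else 1) = S.card * (S.card + p) := by
    have : ∀ x ∈ S, ∑ y ∈ S, (if x = y then p + 1 else 1) = S.card + p := by
      intro x hx
      have e : ∀ y, (if x = y then p + 1 else 1) = 1 + (if x = y then p else 0) := by
        intro y
        split_ifs <;> omega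
      rw [Finset.sum_congr rfl (fun y _ => e y), Finset.sum_add_distrib, Finset.sum_ite_eq,
        if_pos hx, Finset.sum_const, smul_eq_mul, mul_one]
    rw [Finset.sum_congr rfl this, Finset.sum_const, smul_eq_mul]
  rw [h4] at h3
  have h5 := h3.trans h2
  obtain ⟨q, rfl⟩ : ∃ q, p = q + 11 := ⟨p - 11, by omega⟩
  have hc : S.card = 2 * q + 21 := by omega
  rw [hc, show 6 * (q + 11) - 11 = 6 * q + 55 by omega] at h5
  nlinarith

theorem main (hpl : p ∈ PL) (S : Finset (ZMod p × ZMod p)) (hS : S.card + 1 = 2 * p) :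
    ∃ T ⊆ S, T.card = p ∧ ∑ x ∈ T, x = 0 := by
  classical
  have hp11 : 11 ≤ p := by
    simp only [PL, List.mem_cons, List.not_mem_nil, or_false] at hpl
    omega
  obtain ⟨d, hd⟩ := exists_good_dir hp11 S hS
  obtain ⟨T, hT1, hT2, hT3⟩ := vertical hpl (S.map (dir d).toEquiv.toEmbedding)
    (by rw [card_map]; exact hS) hd
  refine ⟨T.map (dir d).symm.toEquiv.toEmbedding, ?_, ?_, ?_⟩
  · intro x hx
    rw [mem_map] at hx
    obtain ⟨y, hy, rfl⟩ := hx
    have := hT1 hy
    rw [mem_map] at this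
    obtain ⟨z, hz, rfl⟩ := this
    show (dir d).symm (dir d z) ∈ S
    rw [AddEquiv.symm_apply_apply]
    exact hz
  · rw [card_map]; exact hT2
  · rw [Finset.sum_map]
    show ∑ x ∈ T, (dir d).symm x = 0
    rw [← map_sum, hT3, map_zero]

end Pool.Agent.H99.HC
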