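import Pool.Agent.H99.HC.Layers

/-!
# Choices of the reserved pairs
-/

namespace Pool.Agent.H99.HC

open Finset

variable {p : ℕ} [hp : Fact p.Prime]

/-- the conclusion of the horizontal part -/
def Good (h : ZMod p → ℕ) : Prop :=
  ∃ t : ZMod p → ℕ, (∀ c, t c ≤ h c) ∧ ∑ c, t c = p ∧
    ∑ c : ZMod p, (t c : ZMod p) * c = 0 ∧ p ≤ ∑ c, t c * (h c - t c) + 1

theorem tangent1 (G : ℕ) : G ≤ G ^ 2 / 4 + 1 := by
  rw [← Nat.sub_le_iff_le_add, Nat.le_div_iff_mul_le (by norm_num)]
  rcases Nat.lt_or_ge G 1 with h | h
  · have : G = 0 := by omega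
    subst this; simp
  · obtain ⟨a, rfl⟩ : ∃ a, G = a + 1 := ⟨G - 1, by omega⟩
    rw [Nat.add_sub_cancel]
    nlinarith [sq_nonneg ((a : ℤ) - 1), Nat.le_total a 1, sq_nonneg (a : ℤ),
      show (a : ℤ) ^ 2 + 1 ≥ 2 * a by nlinarith [sq_nonneg ((a : ℤ) - 1)]]

theorem tangent2 (G : ℕ) : 2 * G ≤ G ^ 2 / 4 + 4 := by
  rw [← Nat.sub_le_iff_le_add, Nat.le_div_iff_mul_le (by norm_num)]
  have h : 2 * G * 4 ≤ G ^ 2 + 16 := by
    have : (0 : ℤ) ≤ ((G : ℤ) - 4) ^ 2 := sq_nonneg _
    have h2 : (2 * G * 4 : ℤ) ≤ G ^ 2 + 16 := by nlinarith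
    exact_mod_cast h2
  omega

/-- Strategy 1: `r` pairs in one large fibre. -/
theorem strat1 (h : ZMod p → ℕ) (hsum : ∑ c, h c + 1 = 2 * p) (c₁ : ZMod p) (r : ℕ)
    (h1 : 2 * r ≤ h c₁) (hle : h c₁ ≤ p) (hgain : p ≤ r * (h c₁ - r) + 1)
    (hoth : ∀ c, c ≠ c₁ → h c + 2 * r ≤ p) : Good h := by
  classical
  have hrsum : ∑ c, 2 * (if c = c₁ then r else 0) = 2 * r := by
    rw [← Finset.mul_sum, Finset.sum_ite_eq' univ c₁, if_pos (mem_univ _)]
  refine assemble h (fun c => if c = c₁ then r else 0) (p - 2 * r) hsum ?_ ?_ ?_ ?_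
  · intro c
    by_cases hc : c = c₁
    · subst hc; simpa using h1
    · simp [hc]
  · intro c
    by_cases hc : c = c₁
    · subst hc
      simp only [if_true]
      omega
    · have := hoth c hc
      simp only [if_neg hc]
      omega
  · have : ∑ c, (if c = c₁ then r else 0) * (h c - if c = c₁ then r else 0) =
        r * (h c₁ - r) := by
      rw [Finset.sum_eq_single c₁]
      · simp
      · intro c _ hc
        simp [hc]
      · simp
    rw [this]
    exact hgain
  · set g : ZMod p → ℕ := fun c => h c - 2 * (if c = c₁ then r else 0) with hg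
    have hM : ∀ c, g c ≤ p - 2 * r := by
      intro c
      simp only [hg]
      by_cases hc : c = c₁
      · subst hc
        simp only [if_true]
        omega
      · have := hoth c hc
        simp only [if_neg hc]
        omega
    have h2 := sum_card_layer g (p - 2 * r) hM
    have h3 : ∑ c, g c + 2 * r = ∑ c, h c := by
      rw [← hrsum, ← Finset.sum_add_distrib]
      refine Finset.sum_congr rfl fun c _ => ?_
      simp only [hg]
      by_cases hc : c = c₁
      · subst hc
        simp only [if_true]
        omega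
      · simp [hc]
    have h4 : ∑ j ∈ range (p - 2 * r), (layer g j).card ≤
        ∑ j ∈ range (p - 2 * r), ((layer g j).card ^ 2 / 4 + 1) :=
      Finset.sum_le_sum fun j _ => tangent1 _
    rw [Finset.sum_add_distrib, Finset.sum_const, card_range, smul_eq_mul, mul_one] at h4
    have hr2 : 2 * r ≤ p := by omega
    omega

/-- Strategy 3: one pair in each fibre of `I`. -/
theorem strat3 (h : ZMod p → ℕ) (hsum : ∑ c, h c + 1 = 2 * p) (I : Finset (ZMod p)) (K : ℕ)
    (hI : ∀ c ∈ I, 2 ≤ h c) (hK : ∀ c, h c ≤ K) (hgain : p ≤ ∑ c ∈ I, (h c - 1) + 1)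
    (hcard : 4 * I.card + 4 * K + 1 ≤ 3 * p) : Good h := by
  classical
  have hrsum : ∑ c, 2 * (if c ∈ I then 1 else 0) = 2 * I.card := by
    rw [← Finset.mul_sum, Finset.sum_ite_mem, Finset.univ_inter, Finset.card_eq_sum_ones]
  refine assemble h (fun c => if c ∈ I then 1 else 0) K hsum ?_ ?_ ?_ ?_
  · intro c
    by_cases hc : c ∈ I
    · have := hI c hc
      simp only [if_pos hc]
      omega
    · simp [hc]
  · intro c
    have := hK c
    omega
  · have : ∑ c, (if c ∈ I then 1 else 0) * (h c - if c ∈ I then 1 else 0) =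
        ∑ c ∈ I, (h c - 1) := by
      rw [← Finset.sum_filter_add_sum_filter_not univ (fun c => c ∈ I)]
      have e1 : ∑ c ∈ univ.filter (fun c => ¬ c ∈ I),
          (if c ∈ I then 1 else 0) * (h c - if c ∈ I then 1 else 0) = 0 := by
        refine Finset.sum_eq_zero fun c hc => ?_
        rw [mem_filter] at hc
        simp [hc.2]
      rw [e1, add_zero, Finset.filter_mem_eq_inter, Finset.univ_inter]
      refine Finset.sum_congr rfl fun c hc => ?_
      simp [hc]
    rw [this]
    exact hgain
  · set g : ZMod p → ℕ := fun c => h c - 2 * (if c ∈ I then 1 else 0) with hg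
    have hM : ∀ c, g c ≤ K := by
      intro c
      have := hK c
      simp only [hg]
      omega
    have h2 := sum_card_layer g K hM
    have h3 : ∑ c, g c + 2 * I.card = ∑ c, h c := by
      rw [← hrsum, ← Finset.sum_add_distrib]
      refine Finset.sum_congr rfl fun c _ => ?_
      simp only [hg]
      by_cases hc : c ∈ I
      · have := hI c hc
        simp only [if_pos hc]
        omega
      · simp [hc]
    have h4 : ∑ j ∈ range K, 2 * (layer g j).card ≤
        ∑ j ∈ range K, ((layer g j).card ^ 2 / 4 + 4) :=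
      Finset.sum_le_sum fun j _ => tangent2 _
    rw [Finset.sum_add_distrib, Finset.sum_const, card_range, smul_eq_mul, ← Finset.mul_sum] at h4
    omega

/-- Strategy 4: in the odd fibres `g = 3` on `T` and `1` elsewhere, in the even ones `g = 2` on
`X`, `4` on `Y` and `0` elsewhere. -/
theorem strat4 (h : ZMod p → ℕ) (hsum : ∑ c, h c + 1 = 2 * p) (T X Y : Finset (ZMod p))
    (hT : ∀ c ∈ T, h c % 2 = 1 ∧ 3 ≤ h c) (hX : ∀ c ∈ X, h c % 2 = 0 ∧ 2 ≤ h c)
    (hY : ∀ c ∈ Y, h c % 2 = 0 ∧ 4 ≤ h c) (hXY : Disjoint X Y)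
    (hgain : p + 2 * T.card + X.card + 4 * Y.card ≤ ∑ c, h c ^ 2 / 4 + 1)
    (hphi : p ≤ ((univ.filter (fun c => h c % 2 = 1)).card + X.card + Y.card) ^ 2 / 4 +
      (T.card + X.card + Y.card) ^ 2 / 4 + (T.card + Y.card) ^ 2 / 4 + Y.card ^ 2 / 4 + 1) :
    Good h := by
  classical
  set O := univ.filter (fun c => h c % 2 = 1) with hO
  -- the free part
  set g : ZMod p → ℕ := fun c => if c ∈ T then 3 else if c ∈ O then 1 else
    if c ∈ X then 2 else if c ∈ Y then 4 else 0 with hg
  have hTO : ∀ c ∈ T, c ∈ O := fun c hc => by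
    rw [hO, mem_filter]; exact ⟨mem_univ _, (hT c hc).1⟩
  have hXO : ∀ c ∈ X, c ∉ O := fun c hc => by
    rw [hO, mem_filter]
    rintro ⟨_, h1⟩
    have := (hX c hc).1
    omega
  have hYO : ∀ c ∈ Y, c ∉ O := fun c hc => by
    rw [hO, mem_filter]
    rintro ⟨_, h1⟩
    have := (hY c hc).1
    omega
  have hXY' : ∀ c ∈ X, c ∉ Y := fun c hc => Finset.disjoint_left.1 hXY hc
  have hgh : ∀ c, g c ≤ h c ∧ g c % 2 = h c % 2 := by
    intro c
    simp only [hg]
    by_cases h1 : c ∈ T
    · have := hT c h1
      rw [if_pos h1]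
      omega
    · by_cases h2 : c ∈ O
      · rw [if_neg h1, if_pos h2]
        rw [hO, mem_filter] at h2
        omega
      · have h2' : h c % 2 = 0 := by
          by_contra h0
          exact h2 (by rw [hO, mem_filter]; exact ⟨mem_univ _, by omega⟩)
        by_cases h3 : c ∈ X
        · have := hX c h3
          rw [if_neg h1, if_neg h2, if_pos h3]
          omega
        · by_cases h4 : c ∈ Y
          · have := hY c h4
            rw [if_neg h1, if_neg h2, if_neg h3, if_pos h4]
            omega
          · rw [if_neg h1, if_neg h2, if_neg h3, if_neg h4]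
            omega
  have hsub : ∀ c, h c - 2 * ((h c - g c) / 2) = g c := by
    intro c
    have := hgh c
    omega
  refine assemble h (fun c => (h c - g c) / 2) 4 hsum ?_ ?_ ?_ ?_
  · intro c
    have := hgh c
    omega
  · intro c
    simp only [hsub]
    simp only [hg]
    split_ifs <;> omega
  · have hterm : ∀ c, h c ^ 2 / 4 = (h c - g c) / 2 * (h c - (h c - g c) / 2) + g c ^ 2 / 4 := by
      intro c
      obtain ⟨h1, h2⟩ := hgh c
      obtain ⟨k, hk⟩ : ∃ k, h c = g c + 2 * k := ⟨(h c - g c) / 2, by omega⟩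
      rw [hk]
      have e1 : (g c + 2 * k - g c) / 2 = k := by omega
      rw [e1, show g c + 2 * k - k = g c + k by omega,
        show (g c + 2 * k) ^ 2 = g c ^ 2 + 4 * (k * (g c + k)) by ring,
        Nat.add_mul_div_left _ _ (by norm_num)]
      ring
    have h5 : ∑ c, g c ^ 2 / 4 = 2 * T.card + X.card + 4 * Y.card := by
      have : ∀ c, g c ^ 2 / 4 = (if c ∈ T then 2 else 0) + (if c ∈ X then 1 else 0) +
          (if c ∈ Y then 4 else 0) := by
        intro c
        simp only [hg]
        by_cases h1 : c ∈ T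
        · have a1 : c ∉ X := fun h => hXO c h (hTO c h1)
          have a2 : c ∉ Y := fun h => hYO c h (hTO c h1)
          simp [h1, a1, a2]
        · by_cases h2 : c ∈ O
          · have a1 : c ∉ X := fun h => hXO c h h2
            have a2 : c ∉ Y := fun h => hYO c h h2
            simp [h1, h2, a1, a2]
          · by_cases h3 : c ∈ X
            · have a2 : c ∉ Y := hXY' c h3
              simp [h1, h2, h3, a2]
            · by_cases h4 : c ∈ Y
              · simp [h1, h2, h3, h4]
              · simp [h1, h2, h3, h4]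
      rw [Finset.sum_congr rfl (fun c _ => this c), Finset.sum_add_distrib,
        Finset.sum_add_distrib, Finset.sum_ite_mem, Finset.sum_ite_mem, Finset.sum_ite_mem,
        Finset.univ_inter, Finset.univ_inter, Finset.univ_inter, Finset.sum_const,
        Finset.sum_const, Finset.sum_const]
      simp only [smul_eq_mul]
      ring
    have h6 : ∑ c, h c ^ 2 / 4 = ∑ c, (h c - g c) / 2 * (h c - (h c - g c) / 2) +
        ∑ c, g c ^ 2 / 4 := by
      rw [← Finset.sum_add_distrib]
      exact Finset.sum_congr rfl fun c _ => hterm c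
    omega
  · have hgg : (fun c => h c - 2 * ((h c - g c) / 2)) = g := funext hsub
    rw [hgg]
    have l0 : (layer g 0).card = O.card + X.card + Y.card := by
      have : layer g 0 = O ∪ X ∪ Y := by
        ext c
        simp only [layer, mem_filter, mem_univ, true_and, mem_union, hg]
        by_cases h1 : c ∈ T
        · simp [h1, hTO c h1]
        · by_cases h2 : c ∈ O
          · simp [h1, h2]
          · by_cases h3 : c ∈ X
            · simp [h1, h2, h3]
            · by_cases h4 : c ∈ Y
              · simp [h1, h2, h3, h4]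
              · simp [h1, h2, h3, h4]
      rw [this, card_union_of_disjoint, card_union_of_disjoint]
      · rw [Finset.disjoint_left]
        intro c h1 h2
        exact hXO c h2 h1
      · rw [Finset.disjoint_left]
        intro c h1 h2
        rw [mem_union] at h1
        rcases h1 with h1 | h1
        · exact hYO c h2 h1
        · exact hXY' c h1 h2
    have l1 : (layer g 1).card = T.card + X.card + Y.card := by
      have : layer g 1 = T ∪ X ∪ Y := by
        ext c
        simp only [layer, mem_filter, mem_univ, true_and, mem_union, hg]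
        by_cases h1 : c ∈ T
        · simp [h1]
        · by_cases h2 : c ∈ O
          · have a1 : c ∉ X := fun h => hXO c h h2
            have a2 : c ∉ Y := fun h => hYO c h h2
            simp [h1, h2, a1, a2]
          · by_cases h3 : c ∈ X
            · simp [h1, h2, h3]
            · by_cases h4 : c ∈ Y
              · simp [h1, h2, h3, h4]
              · simp [h1, h2, h3, h4]
      rw [this, card_union_of_disjoint, card_union_of_disjoint]
      · rw [Finset.disjoint_left]
        intro c h1 h2
        exact hXO c h2 (hTO c h1)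
      · rw [Finset.disjoint_left]
        intro c h1 h2
        rw [mem_union] at h1
        rcases h1 with h1 | h1
        · exact hYO c h2 (hTO c h1)
        · exact hXY' c h1 h2
    have l2 : (layer g 2).card = T.card + Y.card := by
      have : layer g 2 = T ∪ Y := by
        ext c
        simp only [layer, mem_filter, mem_univ, true_and, mem_union, hg]
        by_cases h1 : c ∈ T
        · simp [h1]
        · by_cases h2 : c ∈ O
          · have a2 : c ∉ Y := fun h => hYO c h h2
            simp [h1, h2, a2]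
          · by_cases h3 : c ∈ X
            · have a2 : c ∉ Y := hXY' c h3
              simp [h1, h2, h3, a2]
            · by_cases h4 : c ∈ Y
              · simp [h1, h2, h3, h4]
              · simp [h1, h2, h3, h4]
      rw [this, card_union_of_disjoint]
      rw [Finset.disjoint_left]
      intro c h1 h2
      exact hYO c h2 (hTO c h1)
    have l3 : (layer g 3).card = Y.card := by
      have : layer g 3 = Y := by
        ext c
        simp only [layer, mem_filter, mem_univ, true_and, hg]
        by_cases h1 : c ∈ T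
        · have a2 : c ∉ Y := fun h => hYO c h (hTO c h1)
          simp [h1, a2]
        · by_cases h2 : c ∈ O
          · have a2 : c ∉ Y := fun h => hYO c h h2
            simp [h1, h2, a2]
          · by_cases h3 : c ∈ X
            · have a2 : c ∉ Y := hXY' c h3
              simp [h1, h2, h3, a2]
            · by_cases h4 : c ∈ Y
              · simp [h1, h2, h3, h4]
              · simp [h1, h2, h3, h4]
      rw [this]
    rw [Finset.sum_range_succ, Finset.sum_range_succ, Finset.sum_range_succ,
      Finset.sum_range_one, l0, l1, l2, l3]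
    exact hphi

/-- the case of two fibres with almost `p` elements -/
theorem special (h : ZMod p → ℕ) (c₁ c₂ u : ZMod p) (h12 : c₁ ≠ c₂) (h1u : u ≠ c₁) (h2u : u ≠ c₂)
    (k t₁ t₂ : ℕ) (hk : k ≤ h u) (h1 : t₁ ≤ h c₁) (h2 : t₂ ≤ h c₂) (hsum : k + t₁ + t₂ = p)
    (hz : (k : ZMod p) * u + (t₁ : ZMod p) * c₁ + (t₂ : ZMod p) * c₂ = 0)
    (hgain : p ≤ t₁ * (h c₁ - t₁) + t₂ * (h c₂ - t₂) + 1) : Good h := by
  classical
  have key : ∀ (M : Type) [AddCommMonoid M] (f : ZMod p → ℕ → M) (_ : ∀ c, f c 0 = 0),
      ∑ c, f c (if c = u then k else if c = c₁ then t₁ else if c = c₂ then t₂ else 0) =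
        f u k + f c₁ t₁ + f c₂ t₂ := by
    intro M _ f hf
    rw [← Finset.add_sum_erase univ _ (mem_univ u), ← Finset.add_sum_erase (univ.erase u) _
      (mem_erase.2 ⟨h1u.symm, mem_univ c₁⟩), ← Finset.add_sum_erase ((univ.erase u).erase c₁) _
      (mem_erase.2 ⟨h12.symm, mem_erase.2 ⟨h2u.symm, mem_univ c₂⟩⟩)]
    rw [Finset.sum_eq_zero, if_pos rfl, if_neg h1u.symm, if_pos rfl, if_neg h2u.symm,
      if_neg h12.symm, if_pos rfl, add_zero, add_assoc]
    intro c hc
    simp only [mem_erase] at hc
    rw [if_neg hc.2.2.1, if_neg hc.2.1, if_neg hc.1, hf]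
  refine ⟨fun c => if c = u then k else if c = c₁ then t₁ else if c = c₂ then t₂ else 0,
    ?_, ?_, ?_, ?_⟩
  · intro c
    simp only
    split_ifs with a1 a2 a3
    · rw [a1]; exact hk
    · rw [a2]; exact h1
    · rw [a3]; exact h2
    · exact Nat.zero_le _
  · rw [key ℕ (fun _ t => t) (fun _ => rfl)]
    exact hsum
  · rw [key (ZMod p) (fun c t => (t : ZMod p) * c) (fun c => by simp)]
    exact hz
  · rw [key ℕ (fun c t => t * (h c - t)) (fun c => by simp)]
    refine hgain.trans ?_
    have : 0 ≤ k * (h u - k) := Nat.zero_le _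
    omega

end Pool.Agent.H99.HC
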